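import Pool.Agent.Lib.CWS.Defs

/-!
# Homeomorphisms of pairs, and joins
-/

set_option autoImplicit false

namespace Pool.Agent.CWS

open Set Topology Filter

section PH

variable {E F G : Type} [TopologicalSpace E] [TopologicalSpace F] [TopologicalSpace G]
  {A A' : Set E} {B B' : Set F} {C C' : Set G}

theorem PairHomeo.refl (A A' : Set E) : PairHomeo A A' A A' := ⟨Homeomorph.refl _, fun _ => Iff.rfl⟩

theorem PairHomeo.symm (h : PairHomeo A A' B B') : PairHomeo B B' A A' := by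
  obtain ⟨h, hh⟩ := h
  refine ⟨h.symm, fun x => ?_⟩
  have := hh (h.symm x)
  rw [h.apply_symm_apply] at this
  exact this.symm

theorem PairHomeo.trans (h : PairHomeo A A' B B') (k : PairHomeo B B' C C') :
    PairHomeo A A' C C' := by
  obtain ⟨h, hh⟩ := h
  obtain ⟨k, kk⟩ := k
  exact ⟨h.trans k, fun x => (hh x).trans (kk (h x))⟩

theorem PairHomeo.nonempty (h : PairHomeo A A' B B') : Nonempty (A ≃ₜ B) := by
  obtain ⟨h, -⟩ := h
  exact ⟨h⟩

theorem pairHomeo_iff : PairHomeo A ∅ B ∅ ↔ Nonempty (A ≃ₜ B) := by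
  constructor
  · exact PairHomeo.nonempty
  · rintro ⟨h⟩
    exact ⟨h, fun x => by simp⟩

/-- The restriction to the second members of the pairs. -/
theorem PairHomeo.restrict (h : PairHomeo A A' B B') (hA : A' ⊆ A) (hB : B' ⊆ B) :
    Nonempty (A' ≃ₜ B') := by
  obtain ⟨h, hh⟩ := h
  refine ⟨⟨⟨fun x => ⟨h ⟨x, hA x.2⟩, (hh _).1 x.2⟩, fun y => ⟨h.symm ⟨y, hB y.2⟩, ?_⟩, ?_, ?_⟩, ?_, ?_⟩⟩
  · rw [hh, h.apply_symm_apply]
    exact y.2
  · intro x
    ext
    simp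
  · intro x
    ext
    simp
  · exact Continuous.subtype_mk (continuous_subtype_val.comp (h.continuous.comp
      (Continuous.subtype_mk continuous_subtype_val _))) _
  · exact Continuous.subtype_mk (continuous_subtype_val.comp (h.symm.continuous.comp
      (Continuous.subtype_mk continuous_subtype_val _))) _

/-- The function form. -/
def Hm (A A' : Set E) (B B' : Set F) (f : E → F) : Prop :=
  ContinuousOn f A ∧ BijOn f A B ∧ ∀ x ∈ A, (x ∈ A' ↔ f x ∈ B')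

theorem PairHomeo.exists_hm [Nonempty F] (h : PairHomeo A A' B B') : ∃ f, Hm A A' B B' f := by
  classical
  obtain ⟨h, hh⟩ := h
  let f : E → F := fun x => if hx : x ∈ A then (h ⟨x, hx⟩ : F) else Classical.arbitrary F
  have hf : ∀ x : A, f x = h x := fun x => by
    simp only [f, x.2, dif_pos]
  refine ⟨f, ?_, ⟨?_, ?_, ?_⟩, ?_⟩
  · rw [continuousOn_iff_continuous_domRestrict]
    have : A.domRestrict f = fun x => (h x : F) := by
      funext x
      exact hf x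
    rw [this]
    exact continuous_subtype_val.comp h.continuous
  · intro x hx
    rw [hf ⟨x, hx⟩]
    exact (h ⟨x, hx⟩).2
  · intro x hx y hy hxy
    rw [hf ⟨x, hx⟩, hf ⟨y, hy⟩] at hxy
    have := h.injective (Subtype.ext hxy)
    exact congrArg Subtype.val this
  · intro y hy
    refine ⟨h.symm ⟨y, hy⟩, (h.symm ⟨y, hy⟩).2, ?_⟩
    rw [hf, h.apply_symm_apply]
  · intro x hx
    rw [hf ⟨x, hx⟩]
    exact hh ⟨x, hx⟩

theorem Hm.pair [T2Space F] {f : E → F} (h : Hm A A' B B' f) (hA : IsCompact A) :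
    PairHomeo A A' B B' := by
  obtain ⟨h1, h2, h3⟩ := h
  have : CompactSpace A := isCompact_iff_compactSpace.mp hA
  let e : A ≃ B := h2.equiv f
  have he : ∀ x : A, (e x : F) = f x := fun x => rfl
  have hc : Continuous e := by
    rw [continuous_induced_rng]
    exact continuousOn_iff_continuous_domRestrict.mp h1
  refine ⟨hc.homeoOfEquivCompactToT2, fun x => ?_⟩
  exact h3 x x.2

end PH

variable {E F G H : Type} [NormedAddCommGroup E] [NormedSpace ℝ E] [NormedAddCommGroup F]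
  [NormedSpace ℝ F] [NormedAddCommGroup G] [NormedSpace ℝ G] [NormedAddCommGroup H]
  [NormedSpace ℝ H]

theorem mem_Cs {s : ℝ} (hs : s ≠ 0) {A : Set E} {u : E} : u ∈ Cs s A ↔ s⁻¹ • u ∈ A := by
  constructor
  · rintro (⟨h, -⟩ | ⟨a, ha, rfl⟩)
    · exact absurd h hs
    · rwa [smul_smul, inv_mul_cancel₀ hs, one_smul]
  · intro h
    exact Or.inr ⟨_, h, by rw [smul_smul, mul_inv_cancel₀ hs, one_smul]⟩

theorem mem_Cs_zero {A : Set E} {u : E} : u ∈ Cs 0 A ↔ u = 0 := by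
  constructor
  · rintro (⟨-, h⟩ | ⟨a, -, rfl⟩)
    · exact h
    · exact zero_smul _ _
  · intro h
    exact Or.inl ⟨rfl, h⟩

theorem smul_mem_Cs {c s : ℝ} (hc : c ≠ 0) {A : Set E} {u : E} :
    c • u ∈ Cs (c * s) A ↔ u ∈ Cs s A := by
  by_cases hs : s = 0
  · subst hs
    rw [mul_zero, mem_Cs_zero, mem_Cs_zero, smul_eq_zero]
    simp [hc]
  · rw [mem_Cs hs, mem_Cs (mul_ne_zero hc hs), smul_smul, mul_inv, mul_comm c⁻¹, mul_assoc,
      inv_mul_cancel₀ hc, mul_one]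

/-- `s f (u / s)`. -/
noncomputable def sm (f : E → F) (s : ℝ) (u : E) : F := s • f (s⁻¹ • u)

theorem sm_zero (f : E → F) (u : E) : sm f 0 u = 0 := zero_smul _ _

theorem sm_mem {A : Set E} {B : Set F} {f : E → F} (hf : MapsTo f A B) {s : ℝ} {u : E}
    (hu : u ∈ Cs s A) : sm f s u ∈ Cs s B := by
  by_cases hs : s = 0
  · subst hs
    rw [mem_Cs_zero, sm_zero]
  · rw [mem_Cs hs] at hu ⊢
    unfold sm
    rw [smul_smul, inv_mul_cancel₀ hs, one_smul]
    exact hf hu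

theorem sm_inv {A : Set E} {f : E → F} {f' : F → E} (hf : LeftInvOn f' f A) {s : ℝ} {u : E}
    (hu : u ∈ Cs s A) : sm f' s (sm f s u) = u := by
  by_cases hs : s = 0
  · subst hs
    rw [mem_Cs_zero] at hu
    rw [sm_zero, hu]
  · rw [mem_Cs hs] at hu
    unfold sm
    rw [smul_smul s⁻¹, inv_mul_cancel₀ hs, one_smul, hf hu, smul_smul, mul_inv_cancel₀ hs, one_smul]

theorem sm_iff {A A' : Set E} {B' : Set F} {f : E → F} (hf : ∀ x ∈ A, (x ∈ A' ↔ f x ∈ B'))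
    {s : ℝ} {u : E} (hu : u ∈ Cs s A) : u ∈ Cs s A' ↔ sm f s u ∈ Cs s B' := by
  by_cases hs : s = 0
  · subst hs
    rw [mem_Cs_zero] at hu ⊢
    rw [mem_Cs_zero, sm_zero, hu]
    exact iff_of_true rfl rfl
  · rw [mem_Cs hs] at hu ⊢
    rw [mem_Cs hs]
    unfold sm
    rw [smul_smul, inv_mul_cancel₀ hs, one_smul]
    exact hf _ hu

theorem continuousOn_sm {A : Set E} {f : E → F} (hf : ContinuousOn f A) (M : ℝ)
    (hM : ∀ a ∈ A, ‖f a‖ ≤ M) :
    ContinuousOn (fun q : ℝ × E => sm f q.1 q.2) {q | q.2 ∈ Cs q.1 A} := by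
  intro q hq
  by_cases h0 : q.1 = 0
  · have e0 : sm f q.1 q.2 = 0 := by rw [h0, sm_zero]
    show Tendsto _ _ (𝓝 (sm f q.1 q.2))
    rw [e0]
    have hT : Tendsto (fun q' : ℝ × E => |q'.1| * |M|) (𝓝[{q | q.2 ∈ Cs q.1 A}] q) (𝓝 0) := by
      have hc : Continuous (fun q' : ℝ × E => |q'.1| * |M|) := by fun_prop
      have := hc.tendsto q
      simp only [h0, abs_zero, zero_mul] at this
      exact this.mono_left nhdsWithin_le_nhds
    refine squeeze_zero_norm' ?_ hT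
    filter_upwards [self_mem_nhdsWithin] with q' hq'
    by_cases h1 : q'.1 = 0
    · rw [h1, sm_zero, norm_zero]
      positivity
    · have h2 := (mem_Cs h1).1 hq'
      unfold sm
      rw [norm_smul, Real.norm_eq_abs]
      exact mul_le_mul_of_nonneg_left ((hM _ h2).trans (le_abs_self M)) (abs_nonneg _)
  · have hU : {q' : ℝ × E | q'.1 ≠ 0} ∈ 𝓝 q :=
      (isOpen_ne_fun continuous_fst continuous_const).mem_nhds h0
    have hc : ContinuousWithinAt (fun q' : ℝ × E => q'.1⁻¹ • q'.2)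
        ({q | q.2 ∈ Cs q.1 A} ∩ {q' : ℝ × E | q'.1 ≠ 0}) q :=
      ((continuousAt_fst.inv₀ h0).smul continuousAt_snd).continuousWithinAt
    have hq2 := (mem_Cs h0).1 hq
    have h3 : ContinuousWithinAt (fun q' : ℝ × E => f (q'.1⁻¹ • q'.2))
        ({q | q.2 ∈ Cs q.1 A} ∩ {q' : ℝ × E | q'.1 ≠ 0}) q :=
      ContinuousWithinAt.comp (g := f) (t := A) (hf _ hq2) hc fun q' hq' => (mem_Cs hq'.2).1 hq'.1
    have h4 : ContinuousWithinAt (fun q' : ℝ × E => sm f q'.1 q'.2)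
        ({q | q.2 ∈ Cs q.1 A} ∩ {q' : ℝ × E | q'.1 ≠ 0}) q :=
      continuousAt_fst.continuousWithinAt.smul h3
    exact h4.mono_of_mem_nhdsWithin (inter_mem self_mem_nhdsWithin (nhdsWithin_le_nhds hU))

/-- The map of joins. -/
noncomputable def jm (f : E → G) (g : F → H) (p : ℝ × E × F) : ℝ × G × H :=
  (p.1, sm f p.1 p.2.1, sm g (1 - p.1) p.2.2)

theorem continuousOn_jm {A : Set E} {B : Set F} {f : E → G} {g : F → H} (hf : ContinuousOn f A)
    (hg : ContinuousOn g B) (M : ℝ) (hM : ∀ a ∈ A, ‖f a‖ ≤ M) (N : ℝ) (hN : ∀ b ∈ B, ‖g b‖ ≤ N) :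
    ContinuousOn (jm f g) (join A B) := by
  refine ContinuousOn.prodMk continuousOn_fst (ContinuousOn.prodMk ?_ ?_)
  · exact (continuousOn_sm hf M hM).comp (f := fun p : ℝ × E × F => (p.1, p.2.1))
      (by fun_prop) fun p hp => hp.2.2.1
  · exact (continuousOn_sm hg N hN).comp (f := fun p : ℝ × E × F => (1 - p.1, p.2.2))
      (by fun_prop) fun p hp => hp.2.2.2

theorem isCompact_join {A : Set E} {B : Set F} (hA : IsCompact A) (hB : IsCompact B) :
    IsCompact (join A B) := by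
  have h1 : IsCompact ((fun q : ℝ × E × F => (q.1, q.1 • q.2.1, (1 - q.1) • q.2.2)) ''
      (Icc (0 : ℝ) 1 ×ˢ A ×ˢ B)) :=
    (isCompact_Icc.prod (hA.prod hB)).image (by fun_prop)
  have h2 : IsCompact ((fun a : E => ((1 : ℝ), a, (0 : F))) '' A) := hA.image (by fun_prop)
  have h3 : IsCompact ((fun b : F => ((0 : ℝ), (0 : E), b)) '' B) := hB.image (by fun_prop)
  convert (h1.union h2).union h3 using 1
  ext ⟨s, u, v⟩
  constructor
  · rintro ⟨h0, h1, hu, hv⟩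
    simp only at h0 h1 hu hv
    rcases hu with ⟨hs, hu⟩ | ⟨a, ha, hu⟩
    · subst hs hu
      right
      refine ⟨v, ?_, rfl⟩
      rw [sub_zero, mem_Cs one_ne_zero, inv_one, one_smul] at hv
      exact hv
    · rcases hv with ⟨hs, hv⟩ | ⟨b, hb, hv⟩
      · left; right
        have hs1 : s = 1 := by linarith
        subst hs1 hv
        exact ⟨a, ha, by rw [hu, one_smul]⟩
      · left; left
        exact ⟨(s, a, b), ⟨⟨h0, h1⟩, ha, hb⟩, by rw [hu, hv]⟩
  · rintro ((⟨⟨s', a, b⟩, ⟨⟨h0, h1⟩, ha, hb⟩, h⟩ | ⟨a, ha, h⟩) | ⟨b, hb, h⟩)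
    · simp only [Prod.mk.injEq] at h
      obtain ⟨rfl, rfl, rfl⟩ := h
      exact ⟨h0, h1, Or.inr ⟨a, ha, rfl⟩, Or.inr ⟨b, hb, rfl⟩⟩
    · simp only [Prod.mk.injEq] at h
      obtain ⟨rfl, rfl, rfl⟩ := h
      exact ⟨zero_le_one, le_rfl, Or.inr ⟨a, ha, (one_smul _ _).symm⟩, Or.inl ⟨sub_self _, rfl⟩⟩
    · simp only [Prod.mk.injEq] at h
      obtain ⟨rfl, rfl, rfl⟩ := h
      exact ⟨le_rfl, zero_le_one, Or.inl ⟨rfl, rfl⟩, Or.inr ⟨b, hb, by simp⟩⟩

/-- Joins of homeomorphisms. -/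
theorem hm_join {A A' : Set E} {B B' : Set G} {C : Set F} {D : Set H} {f : E → G} {g : F → H}
    (hf : Hm A A' B B' f) (hg : ContinuousOn g C) (hg' : BijOn g C D) (hB : IsCompact B)
    (hD : IsCompact D) :
    Hm (join A C) (join A' C) (join B D) (join B' D) (jm f g) := by
  obtain ⟨h1, h2, h3⟩ := hf
  obtain ⟨M, hM⟩ := hB.isBounded.exists_norm_le
  obtain ⟨N, hN⟩ := hD.isBounded.exists_norm_le
  refine ⟨continuousOn_jm h1 hg M (fun a ha => hM _ (h2.mapsTo ha)) N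
    (fun b hb => hN _ (hg'.mapsTo hb)), ?_, ?_⟩
  · have i1 := h2.invOn_invFunOn
    have i2 := hg'.invOn_invFunOn
    have b1 : MapsTo (Function.invFunOn f A) B A := (h2.symm i1.symm).mapsTo
    have b2 : MapsTo (Function.invFunOn g C) D C := (hg'.symm i2.symm).mapsTo
    refine InvOn.bijOn (f' := jm (Function.invFunOn f A) (Function.invFunOn g C)) ⟨?_, ?_⟩ ?_ ?_
    · rintro ⟨s, u, v⟩ ⟨_, _, hu, hv⟩
      simp only [jm] at hu hv ⊢
      rw [sm_inv i1.1 hu, sm_inv i2.1 hv]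
    · rintro ⟨s, u, v⟩ ⟨_, _, hu, hv⟩
      simp only [jm] at hu hv ⊢
      rw [sm_inv i1.2 hu, sm_inv i2.2 hv]
    · rintro ⟨s, u, v⟩ ⟨h0, h1, hu, hv⟩
      exact ⟨h0, h1, sm_mem h2.mapsTo hu, sm_mem hg'.mapsTo hv⟩
    · rintro ⟨s, u, v⟩ ⟨h0, h1, hu, hv⟩
      exact ⟨h0, h1, sm_mem b1 hu, sm_mem b2 hv⟩
  · rintro ⟨s, u, v⟩ ⟨h0, h1, hu, hv⟩
    constructor
    · rintro ⟨-, -, hu', -⟩
      exact ⟨h0, h1, (sm_iff h3 hu).1 hu', sm_mem hg'.mapsTo hv⟩
    · rintro ⟨-, -, hu', -⟩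
      exact ⟨h0, h1, (sm_iff h3 hu).2 hu', hv⟩

theorem PairHomeo.join_congr {A A' : Set E} {B B' : Set G} {C : Set F} {D : Set H}
    (h : PairHomeo A A' B B') (k : Nonempty (C ≃ₜ D)) (hA : IsCompact A) (hB : IsCompact B)
    (hC : IsCompact C) (hD : IsCompact D) :
    PairHomeo (join A C) (join A' C) (join B D) (join B' D) := by
  obtain ⟨f, hf⟩ := h.exists_hm
  obtain ⟨g, hg⟩ := (pairHomeo_iff.2 k).exists_hm
  exact (hm_join hf hg.1 hg.2.1 hB hD).pair (isCompact_join hA hC)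

end Pool.Agent.CWS
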