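import Pool.Agent.Lib.CWS.A

/-!
# Associativity of joins, cones
-/

set_option autoImplicit false

namespace Pool.Agent.CWS

open Set Topology Filter

variable {E F G H : Type} [NormedAddCommGroup E] [NormedSpace ℝ E] [NormedAddCommGroup F]
  [NormedSpace ℝ F] [NormedAddCommGroup G] [NormedSpace ℝ G] [NormedAddCommGroup H]
  [NormedSpace ℝ H]

theorem mem_Cs_join {t : ℝ} (ht : 0 ≤ t) {B : Set F} {C : Set G} {q : ℝ × F × G} :
    q ∈ Cs t (join B C) ↔
      0 ≤ q.1 ∧ q.1 ≤ t ∧ q.2.1 ∈ Cs q.1 B ∧ q.2.2 ∈ Cs (t - q.1) C := by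
  obtain ⟨s, u, v⟩ := q
  rcases ht.eq_or_lt with rfl | ht
  · rw [mem_Cs_zero]
    constructor
    · intro h
      simp only [Prod.mk_eq_zero] at h
      obtain ⟨rfl, rfl, rfl⟩ := h
      refine ⟨le_rfl, le_rfl, mem_Cs_zero.2 rfl, ?_⟩
      simp only [sub_self]
      exact mem_Cs_zero.2 rfl
    · rintro ⟨h1, h2, h3, h4⟩
      simp only at h1 h2 h3 h4
      have h5 : s = 0 := le_antisymm h2 h1
      subst h5
      rw [mem_Cs_zero] at h3
      rw [sub_self, mem_Cs_zero] at h4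
      rw [h3, h4]
      rfl
  · rw [mem_Cs ht.ne']
    have e1 : (t⁻¹ • ((s, u, v) : ℝ × F × G)) = (t⁻¹ * s, t⁻¹ • u, t⁻¹ • v) := rfl
    rw [e1]
    unfold join
    simp only [mem_ofPred_eq]
    have e2 : 1 - t⁻¹ * s = t⁻¹ * (t - s) := by
      field_simp
    rw [e2, smul_mem_Cs (inv_ne_zero ht.ne'), smul_mem_Cs (inv_ne_zero ht.ne')]
    have e3 : 0 ≤ t⁻¹ * s ↔ 0 ≤ s := by
      constructor
      · intro h
        have := mul_nonneg ht.le h
        rwa [← mul_assoc, mul_inv_cancel₀ ht.ne', one_mul] at this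
      · intro h
        positivity
    have e4 : t⁻¹ * s ≤ 1 ↔ s ≤ t := by
      rw [inv_mul_le_iff₀ ht, mul_one]
    rw [e3, e4]

theorem mem_join {A : Set E} {B : Set F} {s : ℝ} {u : E} {v : F} :
    ((s, u, v) : ℝ × E × F) ∈ join A B ↔ 0 ≤ s ∧ s ≤ 1 ∧ u ∈ Cs s A ∧ v ∈ Cs (1 - s) B := Iff.rfl

/-- Associativity of joins. -/
theorem hm_assoc (A A' : Set E) (B : Set F) (C : Set G) :
    Hm (join A (join B C)) (join A' (join B C)) (join (join A B) C) (join (join A' B) C)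
      (fun p => (p.1 + p.2.2.1, (p.1, p.2.1, p.2.2.2.1), p.2.2.2.2)) := by
  have key : ∀ (A : Set E) (s : ℝ) (u : E) (T : ℝ) (v : F) (w : G),
      (((s, u, (T, v, w)) : ℝ × E × (ℝ × F × G)) ∈ join A (join B C) ↔
        0 ≤ s ∧ 0 ≤ T ∧ s + T ≤ 1 ∧ u ∈ Cs s A ∧ v ∈ Cs T B ∧ w ∈ Cs (1 - s - T) C) := by
    intro A s u T v w
    rw [mem_join]
    constructor
    · rintro ⟨h0, h1, hu, hv⟩
      rw [mem_Cs_join (by linarith)] at hv
      obtain ⟨h2, h3, h4, h5⟩ := hv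
      exact ⟨h0, h2, by simp only at h3; linarith, hu, h4, h5⟩
    · rintro ⟨h0, h1, h2, hu, hv, hw⟩
      exact ⟨h0, by linarith, hu, (mem_Cs_join (by linarith)).2 ⟨h1, by simp only; linarith, hv, hw⟩⟩
  have key2 : ∀ (A : Set E) (s' s : ℝ) (u : E) (v : F) (w : G),
      (((s', (s, u, v), w) : ℝ × (ℝ × E × F) × G) ∈ join (join A B) C ↔
        0 ≤ s ∧ s ≤ s' ∧ s' ≤ 1 ∧ u ∈ Cs s A ∧ v ∈ Cs (s' - s) B ∧ w ∈ Cs (1 - s') C) := by
    intro A s' s u v w
    rw [mem_join]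
    constructor
    · rintro ⟨h0, h1, hu, hv⟩
      rw [mem_Cs_join h0] at hu
      obtain ⟨h2, h3, h4, h5⟩ := hu
      exact ⟨h2, h3, h1, h4, h5, hv⟩
    · rintro ⟨h0, h1, h2, hu, hv, hw⟩
      exact ⟨by linarith, h2, (mem_Cs_join (by linarith)).2 ⟨h0, h1, hu, hv⟩, hw⟩
  refine ⟨by fun_prop, ?_, ?_⟩
  · refine InvOn.bijOn
      (f' := fun q : ℝ × (ℝ × E × F) × G => (q.2.1.1, q.2.1.2.1, (q.1 - q.2.1.1, q.2.1.2.2, q.2.2)))
      ⟨?_, ?_⟩ ?_ ?_
    · rintro ⟨s, u, T, v, w⟩ -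
      simp
    · rintro ⟨s', ⟨s, u, v⟩, w⟩ -
      simp
    · rintro ⟨s, u, T, v, w⟩ h
      rw [key] at h
      obtain ⟨h0, h1, h2, hu, hv, hw⟩ := h
      refine (key2 A _ _ _ _ _).2 ⟨h0, by simp only; linarith, h2, hu, ?_, ?_⟩
      · simpa using hv
      · rw [show 1 - (s + T) = 1 - s - T by ring]
        exact hw
    · rintro ⟨s', ⟨s, u, v⟩, w⟩ h
      rw [key2] at h
      obtain ⟨h0, h1, h2, hu, hv, hw⟩ := h
      refine (key A _ _ _ _ _).2 ⟨h0, by simp only; linarith, by simp only; linarith, hu, hv, ?_⟩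
      simp only
      rw [show 1 - s - (s' - s) = 1 - s' by ring]
      exact hw
  · rintro ⟨s, u, T, v, w⟩ h
    rw [key] at h
    obtain ⟨h0, h1, h2, hu, hv, hw⟩ := h
    simp only
    rw [key, key2]
    constructor
    · rintro ⟨-, -, -, hu', -, -⟩
      refine ⟨h0, by linarith, h2, hu', by simpa using hv, ?_⟩
      rw [show 1 - (s + T) = 1 - s - T by ring]
      exact hw
    · rintro ⟨-, -, -, hu', -, -⟩
      exact ⟨h0, h1, h2, hu', hv, hw⟩

theorem mem_Cs_empty {s : ℝ} {u : E} : u ∈ Cs s (∅ : Set E) ↔ s = 0 ∧ u = 0 := by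
  unfold Cs
  simp

/-- The join with the empty set. -/
theorem hm_join_empty (A A' : Set E) :
    Hm (join A (∅ : Set F)) (join A' (∅ : Set F)) A A' (fun p => p.2.1) := by
  have key : ∀ (A : Set E) (p : ℝ × E × F), p ∈ join A (∅ : Set F) ↔
      p.1 = 1 ∧ p.2.1 ∈ A ∧ p.2.2 = 0 := by
    rintro A ⟨s, u, v⟩
    rw [mem_join, mem_Cs_empty]
    constructor
    · rintro ⟨h0, h1, hu, hs, hv⟩
      have hs1 : s = 1 := by linarith
      subst hs1
      rw [mem_Cs one_ne_zero, inv_one, one_smul] at hu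
      exact ⟨rfl, hu, hv⟩
    · rintro ⟨hs, hu, hv⟩
      simp only at hs hu hv
      subst hs
      exact ⟨zero_le_one, le_rfl, (mem_Cs one_ne_zero).2 (by rwa [inv_one, one_smul]),
        sub_self _, hv⟩
  refine ⟨by fun_prop, ?_, ?_⟩
  · refine InvOn.bijOn (f' := fun a : E => ((1 : ℝ), a, (0 : F))) ⟨?_, ?_⟩ ?_ ?_
    · intro p hp
      obtain ⟨h1, -, h2⟩ := (key A p).1 hp
      ext <;> simp [h1, h2]
    · intro a _
      rfl
    · intro p hp
      exact ((key A p).1 hp).2.1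
    · intro a ha
      exact (key A _).2 ⟨rfl, ha, rfl⟩
  · intro p hp
    obtain ⟨h1, -, h2⟩ := (key A p).1 hp
    rw [key]
    exact ⟨fun h => h.2.1, fun h => ⟨h1, h, h2⟩⟩

/-- The join of the empty set with `B`. -/
theorem hm_empty_join (B B' : Set F) :
    Hm (join (∅ : Set E) B) (join (∅ : Set E) B') B B' (fun p => p.2.2) := by
  have key : ∀ (B : Set F) (p : ℝ × E × F), p ∈ join (∅ : Set E) B ↔
      p.1 = 0 ∧ p.2.1 = 0 ∧ p.2.2 ∈ B := by
    rintro B ⟨s, u, v⟩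
    rw [mem_join, mem_Cs_empty]
    constructor
    · rintro ⟨h0, h1, ⟨hs, hu⟩, hv⟩
      subst hs
      rw [sub_zero, mem_Cs one_ne_zero, inv_one, one_smul] at hv
      exact ⟨rfl, hu, hv⟩
    · rintro ⟨hs, hu, hv⟩
      simp only at hs hu hv
      subst hs
      exact ⟨le_rfl, zero_le_one, ⟨rfl, hu⟩, by
        rw [sub_zero, mem_Cs one_ne_zero, inv_one, one_smul]; exact hv⟩
  refine ⟨by fun_prop, ?_, ?_⟩
  · refine InvOn.bijOn (f' := fun b : F => ((0 : ℝ), (0 : E), b)) ⟨?_, ?_⟩ ?_ ?_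
    · intro p hp
      obtain ⟨h1, h2, -⟩ := (key B p).1 hp
      ext <;> simp [h1, h2]
    · intro a _
      rfl
    · intro p hp
      exact ((key B p).1 hp).2.2
    · intro a ha
      exact (key B _).2 ⟨rfl, rfl, ha⟩
  · intro p hp
    obtain ⟨h1, h2, -⟩ := (key B p).1 hp
    rw [key]
    exact ⟨fun h => h.2.2, fun h => ⟨h1, h2, h⟩⟩

/-- The cone over `L`. -/
def cone (L : Set E) : Set (ℝ × E × ℝ) := join L {0}

/-- The level of the base of a cone. -/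
def bs : Set (ℝ × E × ℝ) := {p | p.1 = 1}

theorem mem_cone {L : Set E} {s : ℝ} {u : E} {v : ℝ} :
    ((s, u, v) : ℝ × E × ℝ) ∈ cone L ↔ 0 ≤ s ∧ s ≤ 1 ∧ u ∈ Cs s L ∧ v = 0 := by
  unfold cone
  rw [mem_join]
  have h : v ∈ Cs (1 - s) ({0} : Set ℝ) ↔ v = 0 := by
    constructor
    · rintro (⟨-, h⟩ | ⟨a, ha, h⟩)
      · exact h
      · rw [mem_singleton_iff] at ha
        rw [h, ha, smul_zero]
    · rintro rfl
      exact Or.inr ⟨0, rfl, (smul_zero _).symm⟩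
  rw [h]

theorem isCompact_cone {L : Set E} (hL : IsCompact L) : IsCompact (cone L) :=
  isCompact_join hL isCompact_singleton

/-- The Alexander trick: a homeomorphism of the bases extends to the cones. -/
theorem hm_cone {L : Set E} {L' : Set F} {f : E → F} (hf : ContinuousOn f L)
    (hb : BijOn f L L') (hL' : IsCompact L') :
    Hm (cone L) bs (cone L') bs (jm f id) := by
  have h := hm_join (A := L) (A' := ∅) (B := L') (B' := ∅) (C := ({0} : Set ℝ)) (D := {0})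
    (f := f) (g := id) ⟨hf, hb, fun x _ => by simp⟩ continuousOn_id (bijOn_id _) hL'
    isCompact_singleton
  exact ⟨h.1, h.2.1, fun x _ => Iff.rfl⟩

/-- The join of a cone with `D` is the cone over the join. -/
theorem hm_cone_join (L : Set E) (D : Set F) :
    Hm (join (cone L) D) (join bs D) (cone (join L D)) bs
      (fun p => (1 - p.1 + p.2.1.1, (p.2.1.1, p.2.1.2.1, p.2.2), 0)) := by
  have key : ∀ (s S : ℝ) (u : E) (c : ℝ) (v : F),
      (((s, (S, u, c), v) : ℝ × (ℝ × E × ℝ) × F) ∈ join (cone L) D ↔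
        0 ≤ S ∧ S ≤ s ∧ s ≤ 1 ∧ u ∈ Cs S L ∧ c = 0 ∧ v ∈ Cs (1 - s) D) := by
    intro s S u c v
    rw [mem_join]
    have hc : ∀ s, 0 ≤ s → (((S, u, c) : ℝ × E × ℝ) ∈ Cs s (cone L) ↔
        0 ≤ S ∧ S ≤ s ∧ u ∈ Cs S L ∧ c = 0) := by
      intro s hs
      unfold cone
      rw [mem_Cs_join hs]
      have h : c ∈ Cs (s - S) ({0} : Set ℝ) ↔ c = 0 := by
        constructor
        · rintro (⟨-, h⟩ | ⟨a, ha, h⟩)
          · exact h
          · rw [mem_singleton_iff] at ha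
            rw [h, ha, smul_zero]
        · rintro rfl
          exact Or.inr ⟨0, rfl, (smul_zero _).symm⟩
      simp only
      rw [h]
    constructor
    · rintro ⟨h0, h1, hu, hv⟩
      rw [hc s h0] at hu
      exact ⟨hu.1, hu.2.1, h1, hu.2.2.1, hu.2.2.2, hv⟩
    · rintro ⟨h0, h1, h2, hu, hc', hv⟩
      exact ⟨by linarith, h2, (hc s (by linarith)).2 ⟨h0, h1, hu, hc'⟩, hv⟩
  have key2 : ∀ (t S : ℝ) (u : E) (v : F) (c : ℝ),
      (((t, (S, u, v), c) : ℝ × (ℝ × E × F) × ℝ) ∈ cone (join L D) ↔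
        0 ≤ S ∧ S ≤ t ∧ t ≤ 1 ∧ u ∈ Cs S L ∧ v ∈ Cs (t - S) D ∧ c = 0) := by
    intro t S u v c
    rw [mem_cone]
    constructor
    · rintro ⟨h0, h1, hu, hv⟩
      rw [mem_Cs_join h0] at hu
      exact ⟨hu.1, hu.2.1, h1, hu.2.2.1, hu.2.2.2, hv⟩
    · rintro ⟨h0, h1, h2, hu, hv, hc⟩
      exact ⟨by linarith, h2, (mem_Cs_join (by linarith)).2 ⟨h0, h1, hu, hv⟩, hc⟩
  refine ⟨by fun_prop, ?_, ?_⟩
  · refine InvOn.bijOn
      (f' := fun q : ℝ × (ℝ × E × F) × ℝ => (q.2.1.1 + 1 - q.1, (q.2.1.1, q.2.1.2.1, 0), q.2.1.2.2))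
      ⟨?_, ?_⟩ ?_ ?_
    · rintro ⟨s, ⟨S, u, c⟩, v⟩ h
      rw [key] at h
      obtain ⟨-, -, -, -, rfl, -⟩ := h
      simp only [Prod.mk.injEq, and_true]
      ring
    · rintro ⟨t, ⟨S, u, v⟩, c⟩ h
      rw [key2] at h
      obtain ⟨-, -, -, -, -, rfl⟩ := h
      simp only [Prod.mk.injEq, and_true]
      ring
    · rintro ⟨s, ⟨S, u, c⟩, v⟩ h
      rw [key] at h
      obtain ⟨h0, h1, h2, hu, hc, hv⟩ := h
      refine (key2 _ _ _ _ _).2 ⟨h0, by simp only; linarith, by simp only; linarith, hu, ?_, rfl⟩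
      simp only
      rw [show 1 - s + S - S = 1 - s by ring]
      exact hv
    · rintro ⟨t, ⟨S, u, v⟩, c⟩ h
      rw [key2] at h
      obtain ⟨h0, h1, h2, hu, hv, hc⟩ := h
      refine (key _ _ _ _ _).2 ⟨h0, by simp only; linarith, by simp only; linarith, hu, rfl, ?_⟩
      simp only
      rw [show 1 - (S + 1 - t) = t - S by ring]
      exact hv
  · rintro ⟨s, ⟨S, u, c⟩, v⟩ h
    rw [key] at h
    obtain ⟨h0, h1, h2, hu, hc, hv⟩ := h
    simp only [bs, mem_ofPred_eq]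
    rw [mem_join]
    have hb : (((S, u, c) : ℝ × E × ℝ) ∈ Cs s (bs : Set (ℝ × E × ℝ))) ↔ S = s := by
      by_cases hs : s = 0
      · subst hs
        rw [mem_Cs_zero]
        have hS : S = 0 := le_antisymm h1 h0
        subst hS
        rw [mem_Cs_zero] at hu
        rw [hu, hc]
        simp
      · rw [mem_Cs hs]
        show s⁻¹ * S = 1 ↔ S = s
        rw [inv_mul_eq_one₀ hs]
        exact eq_comm
    constructor
    · rintro ⟨-, -, h4, -⟩
      have := hb.1 h4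
      rw [this]
      ring
    · intro h4
      have h5 : S = s := by linarith
      exact ⟨by linarith, h2, hb.2 h5, hv⟩

end Pool.Agent.CWS
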