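import Pool.Agent.Lib.CWS.B

/-!
# Spheres and balls
-/

set_option autoImplicit false

namespace Pool.Agent.CWS

open Set Topology Filter

theorem isCompact_sph (n : ℕ) : IsCompact (Sph n) := isCompact_sphere _ _

theorem isCompact_bal (n : ℕ) : IsCompact (Bal n) := isCompact_closedBall _ _

theorem gauge_sphere {V : Type} [NormedAddCommGroup V] [NormedSpace ℝ V] [FiniteDimensional ℝ V]
    (g : V → ℝ) (hg : Continuous g) (h1 : ∀ (t : ℝ) (x : V), 0 < t → g (t • x) = t * g x)
    (h2 : ∀ x, x ≠ 0 → 0 < g x) (n : ℕ) (hn : Module.finrank ℝ V = n) :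
    Nonempty ({x : V | g x = 1} ≃ₜ Sph n) := by
  have hfe : Module.finrank ℝ V = Module.finrank ℝ (EuclideanSpace ℝ (Fin n)) := by
    rw [hn, finrank_euclideanSpace, Fintype.card_fin]
  let L : V ≃L[ℝ] EuclideanSpace ℝ (Fin n) := ContinuousLinearEquiv.ofFinrankEq hfe
  have g0 : g 0 = 0 := by
    have := h1 2 0 two_pos
    rw [smul_zero] at this
    linarith
  have hx0 : ∀ x : V, g x = 1 → L x ≠ 0 := by
    intro x hx h
    have : x = 0 := by simpa using h
    rw [this, g0] at hx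
    exact zero_ne_one hx
  have hw0 : ∀ w : EuclideanSpace ℝ (Fin n), ‖w‖ = 1 → L.symm w ≠ 0 := by
    intro w hw h
    have : w = 0 := by simpa using h
    rw [this, norm_zero] at hw
    exact zero_ne_one hw
  refine ⟨⟨⟨fun x => ⟨‖L x‖⁻¹ • L x, ?_⟩, fun w => ⟨(g (L.symm w))⁻¹ • L.symm w, ?_⟩, ?_, ?_⟩,
    ?_, ?_⟩⟩
  · have := hx0 x x.2
    rw [mem_sphere_zero_iff_norm, norm_smul, norm_inv, norm_norm,
      inv_mul_cancel₀ (norm_ne_zero_iff.2 this)]
  · have h3 := h2 _ (hw0 w (mem_sphere_zero_iff_norm.1 w.2))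
    show g _ = 1
    rw [h1 _ _ (inv_pos.2 h3), inv_mul_cancel₀ h3.ne']
  · intro x
    ext
    have h3 := norm_pos_iff.2 (hx0 x x.2)
    have h4 : g (x : V) = 1 := x.2
    simp only [map_smul, ContinuousLinearEquiv.symm_apply_apply]
    rw [h1 _ _ (inv_pos.2 h3), h4, mul_one, inv_inv, smul_smul, mul_inv_cancel₀ h3.ne', one_smul]
  · intro w
    apply Subtype.ext
    have h3 := h2 _ (hw0 w (mem_sphere_zero_iff_norm.1 w.2))
    have h4 : ‖(w : EuclideanSpace ℝ (Fin n))‖ = 1 := mem_sphere_zero_iff_norm.1 w.2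
    simp only [map_smul, ContinuousLinearEquiv.apply_symm_apply]
    rw [norm_smul, h4, mul_one, norm_inv, Real.norm_eq_abs, abs_of_pos h3, inv_inv, smul_smul,
      mul_inv_cancel₀ h3.ne', one_smul]
  · refine Continuous.subtype_mk ?_ _
    have hL : Continuous fun x : {x : V | g x = 1} => L x := L.continuous.comp continuous_subtype_val
    exact (hL.norm.inv₀ fun x => norm_ne_zero_iff.2 (hx0 x x.2)).smul hL
  · refine Continuous.subtype_mk ?_ _
    have hL : Continuous fun w : Sph n => L.symm w := L.symm.continuous.comp continuous_subtype_val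
    exact ((hg.comp hL).inv₀ fun w => (h2 _ (hw0 w (mem_sphere_zero_iff_norm.1 w.2))).ne').smul hL

theorem mem_Cs_sph {n : ℕ} {s : ℝ} (hs : 0 ≤ s) {u : EuclideanSpace ℝ (Fin n)} :
    u ∈ Cs s (Sph n) ↔ ‖u‖ = s := by
  rcases hs.eq_or_lt with rfl | hs
  · rw [mem_Cs_zero, norm_eq_zero]
  · rw [mem_Cs hs.ne', mem_sphere_zero_iff_norm, norm_smul, norm_inv, Real.norm_eq_abs,
      abs_of_pos hs, inv_mul_eq_one₀ hs.ne']
    exact eq_comm

/-- The join of two spheres is a sphere. -/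
theorem join_sph (a b : ℕ) : Nonempty (join (Sph a) (Sph b) ≃ₜ Sph (a + b)) := by
  obtain ⟨h⟩ := gauge_sphere (V := EuclideanSpace ℝ (Fin a) × EuclideanSpace ℝ (Fin b))
    (fun x => ‖x.1‖ + ‖x.2‖) (by fun_prop)
    (fun t x ht => by
      rw [Prod.smul_fst, Prod.smul_snd, norm_smul, norm_smul, Real.norm_eq_abs, abs_of_pos ht]
      ring)
    (fun x hx => by
      have h0 := norm_nonneg x.1
      have h1 := norm_nonneg x.2
      rcases h0.eq_or_lt with h2 | h2
      · rcases h1.eq_or_lt with h3 | h3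
        · exact absurd (Prod.ext (norm_eq_zero.1 h2.symm) (norm_eq_zero.1 h3.symm)) hx
        · linarith
      · linarith) (a + b) (by simp)
  have key : ∀ p : ℝ × EuclideanSpace ℝ (Fin a) × EuclideanSpace ℝ (Fin b),
      p ∈ join (Sph a) (Sph b) ↔ ‖p.2.1‖ = p.1 ∧ ‖p.2.2‖ = 1 - p.1 := by
    rintro ⟨s, u, v⟩
    rw [mem_join]
    constructor
    · rintro ⟨h0, h1, hu, hv⟩
      exact ⟨(mem_Cs_sph h0).1 hu, (mem_Cs_sph (by linarith)).1 hv⟩
    · rintro ⟨hu, hv⟩
      simp only at hu hv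
      have h0 : 0 ≤ s := by rw [← hu]; exact norm_nonneg _
      have h1 : 0 ≤ 1 - s := by rw [← hv]; exact norm_nonneg _
      exact ⟨h0, by linarith, (mem_Cs_sph h0).2 hu, (mem_Cs_sph h1).2 hv⟩
  refine ⟨Homeomorph.trans ?_ h⟩
  refine ⟨⟨fun p => ⟨p.1.2, ?_⟩, fun x => ⟨(‖x.1.1‖, x.1), ?_⟩, ?_, ?_⟩, ?_, ?_⟩
  · obtain ⟨h1, h2⟩ := (key p).1 p.2
    show ‖_‖ + ‖_‖ = 1
    rw [h1, h2]
    ring
  · rw [key]
    refine ⟨rfl, ?_⟩
    have : ‖x.1.1‖ + ‖x.1.2‖ = 1 := x.2
    simp only
    linarith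
  · intro p
    apply Subtype.ext
    obtain ⟨h1, -⟩ := (key p).1 p.2
    exact Prod.ext h1 rfl
  · intro x
    rfl
  · exact Continuous.subtype_mk (by fun_prop) _
  · exact Continuous.subtype_mk (by fun_prop) _

/-- The boundary of the simplex is a sphere. -/
theorem bdSimplex_sph (r : ℕ) : Nonempty (bdSimplex r ≃ₜ Sph r) := by
  let ℓ : (Fin (r + 1) → ℝ) →ₗ[ℝ] ℝ := ∑ i, LinearMap.proj i
  have hℓ : ∀ w, ℓ w = ∑ i, w i := fun w => by simp [ℓ]
  let V := LinearMap.ker ℓ
  have hfin : Module.finrank ℝ V = r := by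
    have h0 : ℓ ≠ 0 := by
      intro h
      have h1 := hℓ (fun _ => 1)
      rw [h] at h1
      simp only [LinearMap.zero_apply, Finset.sum_const, Finset.card_univ, Fintype.card_fin,
        nsmul_eq_mul, mul_one] at h1
      have : (0 : ℝ) < ((r + 1 : ℕ) : ℝ) := by positivity
      rw [← h1] at this
      exact lt_irrefl _ this
    have h2 : Module.finrank ℝ V + 1 = Module.finrank ℝ (Fin (r + 1) → ℝ) :=
      Module.Dual.finrank_ker_add_one_of_ne_zero (f := ℓ) h0
    rw [Module.finrank_fin_fun] at h2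
    omega
  have hne : (Finset.univ : Finset (Fin (r + 1))).Nonempty := ⟨0, Finset.mem_univ _⟩
  let m : (Fin (r + 1) → ℝ) → ℝ := fun w => Finset.univ.sup' hne fun i => -w i
  have hm1 : ∀ w i, -w i ≤ m w := fun w i => Finset.le_sup' (fun i => -w i) (Finset.mem_univ i)
  have hm2 : ∀ w, ∃ i, m w = -w i := fun w => by
    obtain ⟨i, -, hi⟩ := Finset.exists_mem_eq_sup' hne fun i => -w i
    exact ⟨i, hi⟩
  have hmc : Continuous m := Continuous.finset_sup'_apply hne fun i _ => by fun_prop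
  have hr : (0 : ℝ) < r + 1 := by positivity
  obtain ⟨h⟩ := gauge_sphere (V := V) (fun w => (r + 1) * m w)
    (continuous_const.mul (hmc.comp continuous_subtype_val))
    (fun t x ht => by
      have key : ∀ y : Fin (r + 1) → ℝ, m (t • y) = t * m y := by
        intro y
        apply le_antisymm
        · obtain ⟨i, hi⟩ := hm2 (t • y)
          rw [hi]
          have := mul_le_mul_of_nonneg_left (hm1 y i) ht.le
          simp only [Pi.smul_apply, smul_eq_mul]
          linarith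
        · obtain ⟨i, hi⟩ := hm2 y
          have := hm1 (t • y) i
          simp only [Pi.smul_apply, smul_eq_mul] at this
          rw [hi]
          linarith
      show ((r : ℝ) + 1) * m (t • (x : Fin (r + 1) → ℝ)) = t * (((r : ℝ) + 1) * m x)
      rw [key]
      ring)
    (fun x hx => by
      apply mul_pos hr
      have hsum : ∑ i, (x : Fin (r + 1) → ℝ) i = 0 := by
        rw [← hℓ]
        exact x.2
      by_contra hcon
      push Not at hcon
      have h1 : ∀ i, 0 ≤ (x : Fin (r + 1) → ℝ) i := fun i => by linarith [hm1 x i]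
      have h2 := (Finset.sum_eq_zero_iff_of_nonneg fun i _ => h1 i).1 hsum
      exact hx (Subtype.ext (funext fun i => h2 i (Finset.mem_univ i)))) r hfin
  refine ⟨Homeomorph.trans ?_ h⟩
  let c : ℝ := ((r : ℝ) + 1)⁻¹
  have hc : ((r : ℝ) + 1) * c = 1 := mul_inv_cancel₀ hr.ne'
  have hcs : ∑ _i : Fin (r + 1), c = 1 := by
    rw [Finset.sum_const, Finset.card_univ, Fintype.card_fin, nsmul_eq_mul]
    push_cast
    exact hc
  refine ⟨⟨fun v => ⟨⟨fun i => v.1 i - c, ?_⟩, ?_⟩, fun w => ⟨fun i => w.1.1 i + c, ?_⟩, ?_, ?_⟩,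
    ?_, ?_⟩
  · show ℓ _ = 0
    rw [hℓ, Finset.sum_sub_distrib, v.2.2.1, hcs, sub_self]
  · show ((r : ℝ) + 1) * m _ = 1
    have : m (fun i => v.1 i - c) = c := by
      apply le_antisymm
      · obtain ⟨i, hi⟩ := hm2 (fun i => v.1 i - c)
        rw [hi]
        linarith [v.2.1 i]
      · obtain ⟨i, hi⟩ := v.2.2.2
        have := hm1 (fun i => v.1 i - c) i
        rw [hi] at this
        linarith
    rw [this, hc]
  · have h1 : ((r : ℝ) + 1) * m (w.1 : Fin (r + 1) → ℝ) = 1 := w.2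
    have h2 : m (w.1 : Fin (r + 1) → ℝ) = c := by
      have := mul_left_cancel₀ hr.ne' (h1.trans hc.symm)
      exact this
    refine ⟨fun i => ?_, ?_, ?_⟩
    · have := hm1 (w.1 : Fin (r + 1) → ℝ) i
      rw [h2] at this
      linarith
    · have hsum : ∑ i, (w.1 : Fin (r + 1) → ℝ) i = 0 := by
        rw [← hℓ]
        exact w.1.2
      rw [Finset.sum_add_distrib, hcs, hsum, zero_add]
    · obtain ⟨i, hi⟩ := hm2 (w.1 : Fin (r + 1) → ℝ)
      refine ⟨i, ?_⟩
      rw [h2] at hi
      linarith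
  · intro v
    apply Subtype.ext
    funext i
    simp
  · intro w
    apply Subtype.ext
    apply Subtype.ext
    funext i
    simp
  · exact Continuous.subtype_mk (Continuous.subtype_mk (continuous_pi fun i =>
      ((continuous_apply i).comp continuous_subtype_val).sub continuous_const) _) _
  · exact Continuous.subtype_mk (continuous_pi fun i =>
      ((continuous_apply i).comp (continuous_subtype_val.comp continuous_subtype_val)).add
        continuous_const) _

theorem isCompact_bdSimplex (r : ℕ) : IsCompact (bdSimplex r) := by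
  obtain ⟨h⟩ := bdSimplex_sph r
  have : CompactSpace (Sph r) := isCompact_iff_compactSpace.mp (isCompact_sph r)
  exact isCompact_iff_compactSpace.mpr h.symm.compactSpace

/-- The ball is the cone over the sphere. -/
theorem hm_cone_sph (n : ℕ) : Hm (cone (Sph n)) bs (Bal n) (Sph n) (fun p => p.2.1) := by
  have key : ∀ p : ℝ × EuclideanSpace ℝ (Fin n) × ℝ,
      p ∈ cone (Sph n) ↔ ‖p.2.1‖ = p.1 ∧ p.1 ≤ 1 ∧ p.2.2 = 0 := by
    rintro ⟨s, u, v⟩
    rw [mem_cone]
    constructor
    · rintro ⟨h0, h1, hu, hv⟩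
      exact ⟨(mem_Cs_sph h0).1 hu, h1, hv⟩
    · rintro ⟨hu, h1, hv⟩
      simp only at hu h1 hv
      have h0 : 0 ≤ s := by rw [← hu]; exact norm_nonneg _
      exact ⟨h0, h1, (mem_Cs_sph h0).2 hu, hv⟩
  refine ⟨by fun_prop, ?_, ?_⟩
  · refine InvOn.bijOn (f' := fun u : EuclideanSpace ℝ (Fin n) => (‖u‖, u, (0 : ℝ))) ⟨?_, ?_⟩ ?_ ?_
    · intro p hp
      obtain ⟨h1, -, h2⟩ := (key p).1 hp
      exact Prod.ext h1 (Prod.ext rfl h2.symm)
    · intro u _
      rfl
    · intro p hp
      obtain ⟨h1, h2, -⟩ := (key p).1 hp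
      rw [mem_closedBall_zero_iff]
      linarith
    · intro u hu
      rw [mem_closedBall_zero_iff] at hu
      exact (key _).2 ⟨rfl, hu, rfl⟩
  · intro p hp
    obtain ⟨h1, -, -⟩ := (key p).1 hp
    rw [mem_sphere_zero_iff_norm, h1]
    exact Iff.rfl

/-- The cone over a sphere is a ball. -/
theorem cone_ball {E : Type} [NormedAddCommGroup E] [NormedSpace ℝ E] {L : Set E}
    (hL : IsCompact L) {n : ℕ} (h : Nonempty (L ≃ₜ Sph n)) :
    PairHomeo (cone L) bs (Bal n) (Sph n) := by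
  obtain ⟨f, hf⟩ := (pairHomeo_iff.2 h).exists_hm
  exact ((hm_cone hf.1 hf.2.1 (isCompact_sph n)).pair (isCompact_cone hL)).trans
    ((hm_cone_sph n).pair (isCompact_cone (isCompact_sph n)))

theorem join_sph' {E F : Type} [NormedAddCommGroup E] [NormedSpace ℝ E] [NormedAddCommGroup F]
    [NormedSpace ℝ F] {A : Set E} {B : Set F} {a b : ℕ} (hA : IsCompact A) (hB : IsCompact B)
    (h : Nonempty (A ≃ₜ Sph a)) (k : Nonempty (B ≃ₜ Sph b)) :
    Nonempty (join A B ≃ₜ Sph (a + b)) := by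
  obtain ⟨e⟩ := ((pairHomeo_iff.2 h).join_congr k hA (isCompact_sph a) hB
    (isCompact_sph b)).nonempty
  obtain ⟨e'⟩ := join_sph a b
  exact ⟨e.trans e'⟩

/-- The join of a ball and a sphere is a ball. -/
theorem join_ball {E F : Type} [NormedAddCommGroup E] [NormedSpace ℝ E] [NormedAddCommGroup F]
    [NormedSpace ℝ F] {A A' : Set E} {D : Set F} {a b : ℕ} (hA : IsCompact A) (hD : IsCompact D)
    (h : PairHomeo A A' (Bal a) (Sph a)) (k : Nonempty (D ≃ₜ Sph b)) :
    PairHomeo (join A D) (join A' D) (Bal (a + b)) (Sph (a + b)) := by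
  have h1 := (h.trans ((hm_cone_sph a).pair (isCompact_cone (isCompact_sph a))).symm).join_congr k
    hA (isCompact_cone (isCompact_sph a)) hD (isCompact_sph b)
  have h2 := (hm_cone_join (Sph a) (Sph b)).pair
    (isCompact_join (isCompact_cone (isCompact_sph a)) (isCompact_sph b))
  exact (h1.trans h2).trans (cone_ball (isCompact_join (isCompact_sph a) (isCompact_sph b))
    (join_sph a b))

end Pool.Agent.CWS
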