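import Pool.Agent.Lib.CWS.C

/-!
# Order complexes
-/

set_option autoImplicit false

namespace Pool.Agent.CWS

open Set Topology Filter

section Geom

variable {P : Type} [Fintype P] [PartialOrder P]

theorem mem_geom {S : Set P} {w : P → ℝ} : w ∈ geom S ↔ (∀ x, 0 ≤ w x) ∧ ∑ x, w x = 1 ∧
    (∀ x, w x ≠ 0 → x ∈ S) ∧ ∀ x y, w x ≠ 0 → w y ≠ 0 → x ≤ y ∨ y ≤ x := Iff.rfl

theorem geom_mono {S T : Set P} (h : S ⊆ T) : geom S ⊆ geom T :=
  fun _ hw => ⟨hw.1, hw.2.1, fun x hx => h (hw.2.2.1 x hx), hw.2.2.2⟩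

theorem mem_geom_of {S T : Set P} {w : P → ℝ} (hw : w ∈ geom S) :
    w ∈ geom T ↔ ∀ x, w x ≠ 0 → x ∈ T :=
  ⟨fun h => h.2.2.1, fun h => ⟨hw.1, hw.2.1, h, hw.2.2.2⟩⟩

theorem geom_inter {S T : Set P} : geom (S ∩ T) = geom S ∩ geom T := by
  ext w
  constructor
  · intro h
    exact ⟨geom_mono inter_subset_left h, geom_mono inter_subset_right h⟩
  · rintro ⟨h1, h2⟩
    exact ⟨h1.1, h1.2.1, fun x hx => ⟨h1.2.2.1 x hx, h2.2.2.1 x hx⟩, h1.2.2.2⟩

theorem geom_empty : geom (∅ : Set P) = ∅ := by
  ext w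
  simp only [mem_empty_iff_false, iff_false]
  rintro ⟨-, h2, h3, -⟩
  have : ∀ x, w x = 0 := fun x => by
    by_contra hx
    exact h3 x hx
  simp [this] at h2

theorem le_one_of_geom {S : Set P} {w : P → ℝ} (hw : w ∈ geom S) (x : P) : w x ≤ 1 := by
  rw [← hw.2.1]
  exact Finset.single_le_sum (fun y _ => hw.1 y) (Finset.mem_univ x)

theorem isCompact_geom (S : Set P) : IsCompact (geom S) := by
  have hb : geom S ⊆ Set.pi univ fun _ => Icc (0 : ℝ) 1 := fun w hw x _ =>
    ⟨hw.1 x, le_one_of_geom hw x⟩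
  have hK : IsCompact (Set.pi univ fun _ : P => Icc (0 : ℝ) 1) :=
    isCompact_univ_pi fun _ => isCompact_Icc
  refine hK.of_isClosed_subset ?_ hb
  have e : geom S = {w | ∀ x, 0 ≤ w x} ∩ ({w | ∑ x, w x = 1} ∩ ({w | ∀ x, x ∉ S → w x = 0} ∩
      {w | ∀ x y, ¬(x ≤ y ∨ y ≤ x) → w x = 0 ∨ w y = 0})) := by
    ext w
    constructor
    · rintro ⟨h1, h2, h3, h4⟩
      refine ⟨h1, h2, fun x hx => ?_, fun x y hxy => ?_⟩
      · by_contra h
        exact hx (h3 x h)
      · by_contra h
        push Not at h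
        exact hxy (h4 x y h.1 h.2)
    · rintro ⟨h1, h2, h3, h4⟩
      refine ⟨h1, h2, fun x hx => ?_, fun x y hx hy => ?_⟩
      · by_contra h
        exact hx (h3 x h)
      · by_contra h
        rcases h4 x y h with h5 | h5
        · exact hx h5
        · exact hy h5
  rw [e]
  refine IsClosed.inter ?_ (IsClosed.inter ?_ (IsClosed.inter ?_ ?_))
  · simp only [ofPred_forall]
    exact isClosed_iInter fun x => isClosed_le continuous_const (continuous_apply x)
  · exact isClosed_eq (by fun_prop) continuous_const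
  · simp only [ofPred_forall]
    exact isClosed_iInter fun x => isClosed_iInter fun _ =>
      isClosed_eq (continuous_apply x) continuous_const
  · simp only [ofPred_forall]
    refine isClosed_iInter fun x => isClosed_iInter fun y => isClosed_iInter fun _ => ?_
    exact IsClosed.union (isClosed_eq (continuous_apply x) continuous_const)
      (isClosed_eq (continuous_apply y) continuous_const)

theorem mem_Cs_geom {S : Set P} {s : ℝ} (hs : 0 ≤ s) {u : P → ℝ} :
    u ∈ Cs s (geom S) ↔ (∀ x, 0 ≤ u x) ∧ ∑ x, u x = s ∧ (∀ x, u x ≠ 0 → x ∈ S) ∧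
      ∀ x y, u x ≠ 0 → u y ≠ 0 → x ≤ y ∨ y ≤ x := by
  rcases hs.eq_or_lt with rfl | hs
  · rw [mem_Cs_zero]
    constructor
    · rintro rfl
      simp
    · rintro ⟨h1, h2, -, -⟩
      funext x
      exact (Finset.sum_eq_zero_iff_of_nonneg fun i _ => h1 i).1 h2 x (Finset.mem_univ x)
  · rw [mem_Cs hs.ne', mem_geom]
    have e1 : ∀ x, (s⁻¹ • u) x = s⁻¹ * u x := fun x => rfl
    have e2 : ∀ x, 0 ≤ (s⁻¹ • u) x ↔ 0 ≤ u x := fun x => by
      rw [e1]
      exact mul_nonneg_iff_of_pos_left (inv_pos.2 hs)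
    have e3 : ∀ x, (s⁻¹ • u) x ≠ 0 ↔ u x ≠ 0 := fun x => by
      rw [e1]
      simp [hs.ne']
    have e4 : ∑ x, (s⁻¹ • u) x = 1 ↔ ∑ x, u x = s := by
      simp only [e1]
      rw [← Finset.mul_sum, inv_mul_eq_one₀ hs.ne']
      exact eq_comm
    simp only [e2, e3, e4]

theorem mem_Cs_bd {r : ℕ} {t : ℝ} (ht : 0 ≤ t) {v : Fin (r + 1) → ℝ} :
    v ∈ Cs t (bdSimplex r) ↔ (∀ i, 0 ≤ v i) ∧ ∑ i, v i = t ∧ ∃ i, v i = 0 := by
  rcases ht.eq_or_lt with rfl | hs
  · rw [mem_Cs_zero]
    constructor
    · rintro rfl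
      exact ⟨fun i => le_rfl, by simp, 0, rfl⟩
    · rintro ⟨h1, h2, -⟩
      funext x
      exact (Finset.sum_eq_zero_iff_of_nonneg fun i _ => h1 i).1 h2 x (Finset.mem_univ x)
  · rw [mem_Cs hs.ne']
    have e1 : ∀ x, (t⁻¹ • v) x = t⁻¹ * v x := fun x => rfl
    have e2 : ∀ x, 0 ≤ (t⁻¹ • v) x ↔ 0 ≤ v x := fun x => by
      rw [e1]
      exact mul_nonneg_iff_of_pos_left (inv_pos.2 hs)
    have e3 : ∀ x, (t⁻¹ • v) x = 0 ↔ v x = 0 := fun x => by
      rw [e1]
      simp [hs.ne']
    have e4 : ∑ x, (t⁻¹ • v) x = 1 ↔ ∑ x, v x = t := by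
      simp only [e1]
      rw [← Finset.mul_sum, inv_mul_eq_one₀ hs.ne']
      exact eq_comm
    unfold bdSimplex
    simp only [mem_ofPred_eq, e2, e3, e4]

/-- A closed cell is the cone over its boundary. -/
theorem hm_cell [OrderBot P] (y : P) (hy : y ≠ ⊥) :
    ∃ f, Hm (geom {x | x ≠ ⊥ ∧ x ≤ y}) (geom {x | x ≠ ⊥ ∧ x < y})
      (cone (geom {x | x ≠ ⊥ ∧ x < y})) bs f := by
  classical
  refine ⟨fun w => (1 - w y, Function.update w y 0, 0), by fun_prop, ?_, ?_⟩
  · refine InvOn.bijOn (f' := fun p : ℝ × (P → ℝ) × ℝ => Function.update p.2.1 y (1 - p.1))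
      ⟨?_, ?_⟩ ?_ ?_
    · intro w hw
      simp only [Function.update_idem]
      rw [sub_sub_cancel, Function.update_eq_self]
    · rintro ⟨s, u, v⟩ hp
      rw [mem_cone] at hp
      obtain ⟨h0, h1, hu, hv⟩ := hp
      rw [mem_Cs_geom h0] at hu
      have hy0 : u y = 0 := by
        by_contra h
        exact lt_irrefl _ (hu.2.2.1 y h).2
      simp only [Function.update_idem, Function.update_self]
      rw [sub_sub_cancel, hv, ← hy0, Function.update_eq_self, hy0]
    · intro w hw
      have hw1 := le_one_of_geom hw y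
      obtain ⟨h1, h2, h3, h4⟩ := hw
      refine mem_cone.2 ⟨by linarith, by linarith [h1 y], (mem_Cs_geom (by linarith)).2
        ⟨fun x => ?_, ?_, fun x hx => ?_, fun x z hx hz => ?_⟩, rfl⟩
      · by_cases hxy : x = y
        · rw [hxy, Function.update_self]
        · rw [Function.update_of_ne hxy]
          exact h1 x
      · have := Finset.sum_update_of_mem (Finset.mem_univ y) w 0
        rw [this, zero_add]
        have h5 := Finset.sum_sdiff (Finset.subset_univ {y}) (f := w)
        rw [h2, Finset.sum_singleton] at h5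
        linarith
      · have hxy : x ≠ y := by
          rintro rfl
          rw [Function.update_self] at hx
          exact hx rfl
        rw [Function.update_of_ne hxy] at hx
        exact ⟨(h3 x hx).1, lt_of_le_of_ne (h3 x hx).2 hxy⟩
      · have hxy : x ≠ y := by
          rintro rfl
          rw [Function.update_self] at hx
          exact hx rfl
        have hzy : z ≠ y := by
          rintro rfl
          rw [Function.update_self] at hz
          exact hz rfl
        rw [Function.update_of_ne hxy] at hx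
        rw [Function.update_of_ne hzy] at hz
        exact h4 x z hx hz
    · rintro ⟨s, u, v⟩ hp
      rw [mem_cone] at hp
      obtain ⟨h0, h1, hu, hv⟩ := hp
      rw [mem_Cs_geom h0] at hu
      obtain ⟨k1, k2, k3, k4⟩ := hu
      have hy0 : u y = 0 := by
        by_contra h
        exact lt_irrefl _ (k3 y h).2
      have k5 : ∀ x, x ≠ y → Function.update u y (1 - s) x = u x := fun x hx =>
        Function.update_of_ne hx _ _
      have k6 : Function.update u y (1 - s) y = 1 - s := Function.update_self _ _ _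
      refine ⟨fun x => ?_, ?_, fun x hx => ?_, fun x z hx hz => ?_⟩
      · by_cases hxy : x = y
        · rw [hxy]
          simp only
          rw [k6]
          linarith
        · simp only
          rw [k5 x hxy]
          exact k1 x
      · have := Finset.sum_update_of_mem (Finset.mem_univ y) u (1 - s)
        simp only
        rw [this]
        have h5 := Finset.sum_sdiff (Finset.subset_univ {y}) (f := u)
        rw [k2, Finset.sum_singleton, hy0, add_zero] at h5
        rw [h5]
        ring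
      · by_cases hxy : x = y
        · rw [hxy]
          exact ⟨hy, le_rfl⟩
        · simp only at hx
          rw [k5 x hxy] at hx
          exact ⟨(k3 x hx).1, (k3 x hx).2.le⟩
      · simp only at hx hz
        by_cases hxy : x = y
        · by_cases hzy : z = y
          · rw [hxy, hzy]
            exact Or.inl le_rfl
          · rw [k5 z hzy] at hz
            rw [hxy]
            exact Or.inr (k3 z hz).2.le
        · rw [k5 x hxy] at hx
          by_cases hzy : z = y
          · rw [hzy]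
            exact Or.inl (k3 x hx).2.le
          · rw [k5 z hzy] at hz
            exact k4 x z hx hz
  · intro w hw
    simp only [bs, mem_ofPred_eq]
    rw [mem_geom_of hw]
    constructor
    · intro h
      have : w y = 0 := by
        by_contra h0
        exact lt_irrefl _ (h y h0).2
      rw [this, sub_zero]
    · intro h x hx
      have h0 : w y = 0 := by linarith
      have h1 := hw.2.2.1 x hx
      refine ⟨h1.1, lt_of_le_of_ne h1.2 ?_⟩
      rintro rfl
      exact hx h0

theorem cell_cone [OrderBot P] (y : P) (hy : y ≠ ⊥) :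
    PairHomeo (geom {x | x ≠ ⊥ ∧ x ≤ y}) (geom {x | x ≠ ⊥ ∧ x < y})
      (cone (geom {x | x ≠ ⊥ ∧ x < y})) bs := by
  obtain ⟨f, hf⟩ := hm_cell y hy
  exact hf.pair (isCompact_geom _)

/-- The join of a closed cell and a sphere, with its boundary, is a cone. -/
theorem cell_join_cone [OrderBot P] (y : P) (hy : y ≠ ⊥) (r : ℕ) :
    PairHomeo (join (geom {x | x ≠ ⊥ ∧ x ≤ y}) (bdSimplex r))
      (join (geom {x | x ≠ ⊥ ∧ x < y}) (bdSimplex r))
      (cone (join (geom {x | x ≠ ⊥ ∧ x < y}) (bdSimplex r))) bs :=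
  ((cell_cone y hy).join_congr ⟨Homeomorph.refl _⟩ (isCompact_geom _)
    (isCompact_cone (isCompact_geom _)) (isCompact_bdSimplex r) (isCompact_bdSimplex r)).trans
    ((hm_cone_join _ _).pair (isCompact_join (isCompact_cone (isCompact_geom _))
      (isCompact_bdSimplex r)))

/-- The join of a closed cell and a sphere, with its boundary, is a ball. -/
theorem cell_join_ball [OrderBot P] {ρ : P → ℤ} (h : IsCW P ρ) (y : P) (hy : y ≠ ⊥) :
    ∃ n : ℕ, ρ y = ρ ⊥ + n + 1 ∧ ∀ r : ℕ, PairHomeo
      (join (geom {x | x ≠ ⊥ ∧ x ≤ y}) (bdSimplex r))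
      (join (geom {x | x ≠ ⊥ ∧ x < y}) (bdSimplex r)) (Bal (n + r)) (Sph (n + r)) := by
  obtain ⟨n, h1, h2⟩ := h.cell y hy
  refine ⟨n, h1, fun r => ?_⟩
  exact join_ball (isCompact_geom _) (isCompact_bdSimplex r)
    ((cell_cone y hy).trans (cone_ball (isCompact_geom _) h2)) (bdSimplex_sph r)

end Geom

end Pool.Agent.CWS
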