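import Mathlib

/-!
# CW-posets and strong CW-regular subdivisions: definitions
-/

set_option autoImplicit false

namespace Pool.Agent.CWS

open Set

/-- There is a homeomorphism from `A` to `B` which carries `A ∩ A'` onto `B ∩ B'`. -/
def PairHomeo {E F : Type} [TopologicalSpace E] [TopologicalSpace F] (A A' : Set E)
    (B B' : Set F) : Prop :=
  ∃ h : A ≃ₜ B, ∀ x : A, (x : E) ∈ A' ↔ (h x : F) ∈ B'

/-- The multiples by `s` of the elements of `A`; this is `{0}` if `s = 0`, even if `A` is empty. -/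
def Cs {E : Type} [NormedAddCommGroup E] [NormedSpace ℝ E] (s : ℝ) (A : Set E) : Set E :=
  {u | (s = 0 ∧ u = 0) ∨ ∃ a ∈ A, u = s • a}

/-- The topological join of `A` and `B` (for compact `A`, `B`): the points `(s, s a, (1 - s) b)`,
`0 ≤ s ≤ 1`, `a ∈ A`, `b ∈ B`; the join of `A` with the empty set is (a copy of) `A`. -/
def join {E F : Type} [NormedAddCommGroup E] [NormedSpace ℝ E] [NormedAddCommGroup F]
    [NormedSpace ℝ F] (A : Set E) (B : Set F) : Set (ℝ × E × F) :=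
  {p | 0 ≤ p.1 ∧ p.1 ≤ 1 ∧ p.2.1 ∈ Cs p.1 A ∧ p.2.2 ∈ Cs (1 - p.1) B}

/-- The unit sphere of `ℝⁿ`, of dimension `n - 1` (empty for `n = 0`). -/
abbrev Sph (n : ℕ) : Set (EuclideanSpace ℝ (Fin n)) := Metric.sphere 0 1

/-- The closed unit ball of `ℝⁿ`. -/
abbrev Bal (n : ℕ) : Set (EuclideanSpace ℝ (Fin n)) := Metric.closedBall 0 1

/-- The boundary of the standard simplex of dimension `r` (empty for `r = 0`). -/
def bdSimplex (r : ℕ) : Set (Fin (r + 1) → ℝ) :=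
  {v | (∀ i, 0 ≤ v i) ∧ ∑ i, v i = 1 ∧ ∃ i, v i = 0}

/-- The geometric realization of the order complex of the subset `S` of the finite poset `P`: the
convex combinations of the elements of the chains in `S`. -/
def geom {P : Type} [Fintype P] [PartialOrder P] (S : Set P) : Set (P → ℝ) :=
  {w | (∀ x, 0 ≤ w x) ∧ ∑ x, w x = 1 ∧ (∀ x, w x ≠ 0 → x ∈ S) ∧
    ∀ x y, w x ≠ 0 → w y ≠ 0 → x ≤ y ∨ y ≤ x}

/-- The finite poset `P` with least element is a CW-poset and `ρ` is a rank function of it: `ρ`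
increases by one along each cover, and for each `y` above the least element the order complex of
the open interval below `y` is a sphere of dimension `ρ y - ρ ⊥ - 2`. Then `P` is the face poset of
a regular CW complex `K`, namely of the order complex of `P` without `⊥`, divided into the closed
cells `geom {x | x ≠ ⊥ ∧ x ≤ y}`. -/
structure IsCW (P : Type) [Fintype P] [PartialOrder P] [OrderBot P] (ρ : P → ℤ) : Prop where
  rank : ∀ x y, x ⋖ y → ρ y = ρ x + 1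
  cell : ∀ y, y ≠ ⊥ → ∃ n : ℕ, ρ y = ρ ⊥ + n + 1 ∧ Nonempty (geom {x | x ≠ ⊥ ∧ x < y} ≃ₜ Sph n)

/-- `σ` is a strong CW-regular subdivision. -/
def Strong {X Y : Type} [Fintype X] [PartialOrder X] [OrderBot X] [Fintype Y] [PartialOrder Y]
    [OrderBot Y] (ρX : X → ℤ) (ρY : Y → ℤ) (σ : X → Y) : Prop :=
  Monotone σ ∧ Function.Surjective σ ∧ (∀ x, ρX x ≤ ρY (σ x)) ∧
    ∃ r : ℕ, ρY ⊥ = ρX ⊥ + r ∧
      ∀ y, ∃ h : geom {x | x ≠ ⊥ ∧ σ x ≤ y} ≃ₜ join (geom {x | x ≠ ⊥ ∧ x ≤ y}) (bdSimplex r),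
        y ≠ ⊥ → ∀ p : geom {x | x ≠ ⊥ ∧ σ x ≤ y}, (p : X → ℝ) ∈ geom {x | x ≠ ⊥ ∧ σ x < y} ↔
          (h p : ℝ × (Y → ℝ) × (Fin (r + 1) → ℝ)) ∈
            join (geom {x | x ≠ ⊥ ∧ x < y}) (bdSimplex r)

/-- The positive answer to the question: if `σ` and `τ ∘ σ` are strong CW-regular subdivisions, then
so is `τ`. -/
def Cancellation : Prop :=
  ∀ (X Y Z : Type) [Fintype X] [PartialOrder X] [OrderBot X] [Fintype Y] [PartialOrder Y]
    [OrderBot Y] [Fintype Z] [PartialOrder Z] [OrderBot Z] (ρX : X → ℤ) (ρY : Y → ℤ) (ρZ : Z → ℤ)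
    (σ : X → Y) (τ : Y → Z), IsCW X ρX → IsCW Y ρY → IsCW Z ρZ →
    Monotone σ → (∀ x, ρX x ≤ ρY (σ x)) → Monotone τ → (∀ y, ρY y ≤ ρZ (τ y)) →
    Strong ρX ρY σ → Strong ρX ρZ (τ ∘ σ) → Strong ρY ρZ τ

/-- The positive answer to the question for the posets with `dim K_Z + rank (τ ∘ σ) ≤ D`; the left
side is the dimension of `K_X`. -/
def CancellationUpTo (D : ℕ) : Prop :=
  ∀ (X Y Z : Type) [Fintype X] [PartialOrder X] [OrderBot X] [Fintype Y] [PartialOrder Y]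
    [OrderBot Y] [Fintype Z] [PartialOrder Z] [OrderBot Z] (ρX : X → ℤ) (ρY : Y → ℤ) (ρZ : Z → ℤ)
    (σ : X → Y) (τ : Y → Z), (∀ z, ρZ z ≤ ρX ⊥ + D + 1) → IsCW X ρX → IsCW Y ρY → IsCW Z ρZ →
    Monotone σ → (∀ x, ρX x ≤ ρY (σ x)) → Monotone τ → (∀ y, ρY y ≤ ρZ (τ y)) →
    Strong ρX ρY σ → Strong ρX ρZ (τ ∘ σ) → Strong ρY ρZ τ

/-- If the suspension of a finite regular CW complex of dimension at most `m - 1` is homeomorphic to
the sphere of dimension `m`, where `m ≤ D`, then the complex is homeomorphic to the sphere of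
dimension `m - 1`. -/
def SphereDesuspension (D : ℕ) : Prop :=
  ∀ (L : Type) [Fintype L] [PartialOrder L] [OrderBot L] (ρ : L → ℤ) (m : ℕ), m ≤ D → IsCW L ρ →
    (∀ x, ρ x ≤ ρ ⊥ + m) →
    Nonempty (join (geom {x : L | x ≠ ⊥}) (bdSimplex 1) ≃ₜ Sph (m + 1)) →
    Nonempty (geom {x : L | x ≠ ⊥} ≃ₜ Sph m)

/-- If a finite regular CW complex of dimension at most `m` and a subcomplex of dimension at most
`m - 1` are such that the suspensions form a pair homeomorphic to the ball of dimension `m + 1` and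
its boundary sphere, where `m + 1 ≤ D`, then the pair is homeomorphic to the ball of dimension `m`
and its boundary sphere. -/
def BallDesuspension (D : ℕ) : Prop :=
  ∀ (L : Type) [Fintype L] [PartialOrder L] [OrderBot L] (ρ : L → ℤ) (C : Set L) (m : ℕ),
    m + 1 ≤ D → IsCW L ρ → IsLowerSet C → ⊥ ∈ C → (∀ x, ρ x ≤ ρ ⊥ + m + 1) →
    (∀ x ∈ C, ρ x ≤ ρ ⊥ + m) →
    PairHomeo (join (geom {x : L | x ≠ ⊥}) (bdSimplex 1))
      (join (geom {x | x ≠ ⊥ ∧ x ∈ C}) (bdSimplex 1)) (Bal (m + 1)) (Sph (m + 1)) →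
    PairHomeo (geom {x : L | x ≠ ⊥}) (geom {x | x ≠ ⊥ ∧ x ∈ C}) (Bal m) (Sph m)

end Pool.Agent.CWS
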