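import Pool.Agent.Lib.CWS.D

/-!
# The suspension of a poset, lower sets, ranks
-/

set_option autoImplicit false

namespace Pool.Agent.CWS

open Set Topology Filter

/-- The face poset of the suspension: two new elements between the least element and the others. -/
def Ext (Y : Type) : Type := Y ⊕ Fin 2

namespace Ext

variable {Y : Type}

instance [Fintype Y] : Fintype (Ext Y) := inferInstanceAs (Fintype (Y ⊕ Fin 2))

/-- The old elements. -/
def old (y : Y) : Ext Y := Sum.inl y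

/-- The new elements. -/
def new (i : Fin 2) : Ext Y := Sum.inr i

variable [PartialOrder Y] [OrderBot Y]

/-- The order. -/
def le : Ext Y → Ext Y → Prop
  | Sum.inl y, Sum.inl z => y ≤ z
  | Sum.inl y, Sum.inr _ => y = ⊥
  | Sum.inr _, Sum.inl z => z ≠ ⊥
  | Sum.inr i, Sum.inr j => i = j

instance : PartialOrder (Ext Y) where
  le := le
  le_refl := by
    rintro (y | i)
    · exact le_refl y
    · exact rfl
  le_trans := by
    rintro (a | a) (b | b) (c | c) h k
    · exact le_trans h k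
    · have k : b = ⊥ := k
      have h : a ≤ b := h
      subst k
      exact le_bot_iff.1 h
    · have h : a = ⊥ := h
      subst h
      exact bot_le
    · exact h
    · have h : b ≠ ⊥ := h
      have k : b ≤ c := k
      show c ≠ ⊥
      rintro rfl
      exact h (le_bot_iff.1 k)
    · exact absurd k h
    · exact k
    · exact Eq.trans h k
  le_antisymm := by
    rintro (a | a) (b | b) h k
    · exact congrArg Sum.inl (le_antisymm h k)
    · exact absurd h k
    · exact absurd k h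
    · exact congrArg Sum.inr h

instance : OrderBot (Ext Y) where
  bot := Sum.inl ⊥
  bot_le := by
    rintro (a | a)
    · exact bot_le (a := a)
    · exact rfl

theorem bot_eq : (⊥ : Ext Y) = old ⊥ := rfl

@[simp] theorem old_le {y z : Y} : old y ≤ old z ↔ y ≤ z := Iff.rfl

@[simp] theorem new_le {z : Y} {i : Fin 2} : new i ≤ old z ↔ z ≠ ⊥ := Iff.rfl

@[simp] theorem old_le_new {z : Y} {i : Fin 2} : old z ≤ new i ↔ z = ⊥ := Iff.rfl

@[simp] theorem new_le_new {i j : Fin 2} : (new i : Ext Y) ≤ new j ↔ i = j := Iff.rfl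

@[simp] theorem old_lt {y z : Y} : old y < old z ↔ y < z := by
  rw [lt_iff_le_not_ge, lt_iff_le_not_ge, old_le, old_le]

@[simp] theorem new_lt {z : Y} {i : Fin 2} : new i < old z ↔ z ≠ ⊥ := by
  rw [lt_iff_le_not_ge, new_le, old_le_new]
  tauto

@[simp] theorem old_lt_new {z : Y} {i : Fin 2} : old z < new i ↔ z = ⊥ := by
  rw [lt_iff_le_not_ge, new_le, old_le_new]
  tauto

@[simp] theorem new_lt_new {i j : Fin 2} : ¬ (new i : Ext Y) < new j := by
  rw [lt_iff_le_not_ge, new_le_new, new_le_new]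
  tauto

@[simp] theorem old_ne_bot {y : Y} : (old y : Ext Y) ≠ ⊥ ↔ y ≠ ⊥ := by
  rw [bot_eq]
  exact not_congr Sum.inl_injective.eq_iff

@[simp] theorem new_ne_bot {i : Fin 2} : (new i : Ext Y) ≠ ⊥ := by
  rw [bot_eq]
  unfold old new
  simp

omit [PartialOrder Y] [OrderBot Y] in
theorem cases (x : Ext Y) : (∃ y, x = old y) ∨ ∃ i, x = new i := by
  rcases x with y | i
  · exact Or.inl ⟨y, rfl⟩
  · exact Or.inr ⟨i, rfl⟩

/-- The projection. -/
def proj : Ext Y → Y
  | Sum.inl y => y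
  | Sum.inr _ => ⊥

@[simp] theorem proj_old {y : Y} : proj (old y) = y := rfl

@[simp] theorem proj_new {i : Fin 2} : (proj (new i) : Y) = ⊥ := rfl

open scoped Classical in
/-- The rank function. -/
noncomputable def rk (ρ : Y → ℤ) : Ext Y → ℤ
  | Sum.inl y => if y = ⊥ then ρ ⊥ - 1 else ρ y
  | Sum.inr _ => ρ ⊥

theorem rk_bot (ρ : Y → ℤ) : rk ρ ⊥ = ρ ⊥ - 1 := if_pos rfl

theorem rk_old_bot (ρ : Y → ℤ) : rk ρ (old ⊥) = ρ ⊥ - 1 := if_pos rfl

theorem rk_old (ρ : Y → ℤ) {y : Y} (hy : y ≠ ⊥) : rk ρ (old y) = ρ y := if_neg hy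

theorem rk_new (ρ : Y → ℤ) (i : Fin 2) : rk ρ (new i) = ρ ⊥ := rfl

variable [Fintype Y]

/-- The map to the suspension. -/
def toSusp (w : Ext Y → ℝ) : ℝ × (Y → ℝ) × (Fin (1 + 1) → ℝ) :=
  (∑ y, w (old y), fun y => w (old y), fun i => w (new i))

theorem toSusp_mem {T : Set (Ext Y)} {S : Set Y} (h0 : ⊥ ∉ S) (h1 : ∀ y, old y ∈ T ↔ y ∈ S)
    (h2 : ∀ i, new i ∈ T) (w : Ext Y → ℝ) :
    w ∈ geom T ↔ toSusp w ∈ join (geom S) (bdSimplex 1) := by
  have hsum : ∑ x, w x = ∑ y, w (old y) + ∑ i, w (new i) := Fintype.sum_sum_type w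
  constructor
  · rintro ⟨n, hs, hS, hc⟩
    have a1 : 0 ≤ ∑ y, w (old y) := Finset.sum_nonneg fun y _ => n _
    have a2 : 0 ≤ ∑ i, w (new i) := Finset.sum_nonneg fun y _ => n _
    rw [hsum] at hs
    refine mem_join.2 ⟨a1, by linarith, (mem_Cs_geom a1).2 ⟨fun y => n _, rfl,
      fun y hy => (h1 y).1 (hS _ hy), fun y z hy hz => hc (old y) (old z) hy hz⟩,
      (mem_Cs_bd (by linarith)).2 ⟨fun i => n _, by linarith, ?_⟩⟩
    by_contra h
    push Not at h
    have := hc (new 0) (new 1) (h 0) (h 1)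
    simp at this
  · intro h
    obtain ⟨b1, b2, b3, b4⟩ := mem_join.1 h
    rw [mem_Cs_geom b1] at b3
    rw [mem_Cs_bd (by linarith)] at b4
    obtain ⟨c1, c2, c3, c4⟩ := b3
    obtain ⟨d1, d2, k, d3⟩ := b4
    refine ⟨?_, ?_, ?_, ?_⟩
    · intro x
      rcases cases x with ⟨y, rfl⟩ | ⟨i, rfl⟩
      · exact c1 y
      · exact d1 i
    · rw [hsum, d2]
      ring
    · intro x hx
      rcases cases x with ⟨y, rfl⟩ | ⟨i, rfl⟩
      · exact (h1 y).2 (c3 y hx)
      · exact h2 i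
    · intro x z hx hz
      rcases cases x with ⟨y, rfl⟩ | ⟨i, rfl⟩
      · rcases cases z with ⟨z, rfl⟩ | ⟨j, rfl⟩
        · exact c4 y z hx hz
        · right
          rw [new_le]
          rintro rfl
          exact h0 (c3 _ hx)
      · rcases cases z with ⟨z, rfl⟩ | ⟨j, rfl⟩
        · left
          rw [new_le]
          rintro rfl
          exact h0 (c3 _ hz)
        · left
          rw [new_le_new]
          by_contra hij
          have hk : k = i ∨ k = j := by omega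
          rcases hk with rfl | rfl
          · exact hx d3
          · exact hz d3

theorem hm_susp {T T' : Set (Ext Y)} {S S' : Set Y} (h0 : ⊥ ∉ S) (h1 : ∀ y, old y ∈ T ↔ y ∈ S)
    (h2 : ∀ i, new i ∈ T) (h0' : ⊥ ∉ S') (h1' : ∀ y, old y ∈ T' ↔ y ∈ S')
    (h2' : ∀ i, new i ∈ T') :
    Hm (geom T) (geom T') (join (geom S) (bdSimplex 1)) (join (geom S') (bdSimplex 1)) toSusp := by
  have key : ∀ p ∈ join (geom S) (bdSimplex 1),
      toSusp (Sum.elim p.2.1 p.2.2 : Y ⊕ Fin 2 → ℝ) = p := by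
    rintro ⟨s, u, v⟩ hp
    obtain ⟨b1, b2, b3, b4⟩ := mem_join.1 hp
    rw [mem_Cs_geom b1] at b3
    have : ∑ y, u y = s := b3.2.1
    exact Prod.ext this rfl
  refine ⟨by unfold toSusp; fun_prop, ?_, fun w _ => toSusp_mem h0' h1' h2' w⟩
  refine InvOn.bijOn (f' := fun p => (Sum.elim p.2.1 p.2.2 : Y ⊕ Fin 2 → ℝ)) ⟨?_, ?_⟩ ?_ ?_
  · intro w _
    funext x
    rcases cases x with ⟨y, rfl⟩ | ⟨i, rfl⟩
    · rfl
    · rfl
  · intro p hp
    exact key p hp
  · intro w hw
    exact (toSusp_mem h0 h1 h2 w).1 hw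
  · intro p hp
    refine (toSusp_mem h0 h1 h2 _).2 ?_
    rw [key p hp]
    exact hp

theorem pair_susp {T T' : Set (Ext Y)} {S S' : Set Y} (h0 : ⊥ ∉ S) (h1 : ∀ y, old y ∈ T ↔ y ∈ S)
    (h2 : ∀ i, new i ∈ T) (h0' : ⊥ ∉ S') (h1' : ∀ y, old y ∈ T' ↔ y ∈ S')
    (h2' : ∀ i, new i ∈ T') :
    PairHomeo (geom T) (geom T') (join (geom S) (bdSimplex 1)) (join (geom S') (bdSimplex 1)) :=
  (hm_susp h0 h1 h2 h0' h1' h2').pair (isCompact_geom _)

end Ext

theorem empty_sph {E : Type} [TopologicalSpace E] {A : Set E} (hA : A = ∅) :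
    Nonempty (A ≃ₜ Sph 0) := by
  subst hA
  have h1 : IsEmpty (Sph 0) := by
    refine ⟨fun x => ?_⟩
    have h := mem_sphere_zero_iff_norm.1 x.2
    have h2 : (x : EuclideanSpace ℝ (Fin 0)) = 0 := Subsingleton.elim _ _
    rw [h2, norm_zero] at h
    exact zero_ne_one h
  have h2 : IsEmpty (∅ : Set E) := inferInstance
  exact ⟨Homeomorph.empty⟩

theorem cond_iff {E F : Type} [TopologicalSpace E] [TopologicalSpace F] {A A' : Set E}
    {B B' : Set F} {q : Prop} : (∃ h : A ≃ₜ B, q → ∀ p : A, (p : E) ∈ A' ↔ (h p : F) ∈ B') ↔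
      Nonempty (A ≃ₜ B) ∧ (q → PairHomeo A A' B B') := by
  constructor
  · rintro ⟨h, hh⟩
    exact ⟨⟨h⟩, fun hq => ⟨h, hh hq⟩⟩
  · rintro ⟨⟨h⟩, hh⟩
    by_cases hq : q
    · obtain ⟨k, hk⟩ := hh hq
      exact ⟨k, fun _ => hk⟩
    · exact ⟨h, fun h' => absurd h' hq⟩

section

variable {Y : Type} [Fintype Y] [PartialOrder Y] [OrderBot Y] {ρ : Y → ℤ}

theorem isCW_ext (h : IsCW Y ρ) : IsCW (Ext Y) (Ext.rk ρ) := by
  refine ⟨fun x z hxz => ?_, fun x hx => ?_⟩
  · rcases Ext.cases x with ⟨y, rfl⟩ | ⟨i, rfl⟩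
    · rcases Ext.cases z with ⟨z, rfl⟩ | ⟨j, rfl⟩
      · have hlt := hxz.1
        rw [Ext.old_lt] at hlt
        have hz : z ≠ ⊥ := (bot_le.trans_lt hlt).ne'
        have hy : y ≠ ⊥ := by
          rintro rfl
          exact hxz.2 (c := Ext.new 0) (by simp) (by simpa using hz)
        rw [Ext.rk_old ρ hy, Ext.rk_old ρ hz]
        refine h.rank _ _ ⟨hlt, fun c hc1 hc2 => hxz.2 (c := Ext.old c) ?_ ?_⟩
        · rwa [Ext.old_lt]
        · rwa [Ext.old_lt]
      · have hlt := hxz.1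
        rw [Ext.old_lt_new] at hlt
        subst hlt
        rw [Ext.rk_old_bot, Ext.rk_new]
        ring
    · rcases Ext.cases z with ⟨z, rfl⟩ | ⟨j, rfl⟩
      · have hlt := hxz.1
        rw [Ext.new_lt] at hlt
        rw [Ext.rk_new, Ext.rk_old ρ hlt]
        refine h.rank _ _ ⟨bot_lt_iff_ne_bot.2 hlt, fun c hc1 hc2 =>
          hxz.2 (c := Ext.old c) ?_ ?_⟩
        · rw [Ext.new_lt]
          exact hc1.ne'
        · rwa [Ext.old_lt]
      · exact absurd hxz.1 Ext.new_lt_new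
  · rcases Ext.cases x with ⟨y, rfl⟩ | ⟨i, rfl⟩
    · rw [Ext.old_ne_bot] at hx
      obtain ⟨n, h1, h2⟩ := h.cell y hx
      refine ⟨n + 1, ?_, ?_⟩
      · rw [Ext.rk_old ρ hx, Ext.rk_bot, h1]
        push_cast
        ring
      · have hs := Ext.pair_susp (T := {x | x ≠ ⊥ ∧ x < Ext.old y}) (T' := {x | x ≠ ⊥ ∧ x < Ext.old y})
          (S := {z | z ≠ ⊥ ∧ z < y}) (S' := {z | z ≠ ⊥ ∧ z < y}) (by simp) (by simp)
          (by simpa using hx) (by simp) (by simp) (by simpa using hx)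
        obtain ⟨e⟩ := hs.nonempty
        obtain ⟨e'⟩ := join_sph' (isCompact_geom _) (isCompact_bdSimplex 1) h2 (bdSimplex_sph 1)
        exact ⟨e.trans e'⟩
    · refine ⟨0, ?_, ?_⟩
      · rw [Ext.rk_new, Ext.rk_bot]
        push_cast
        ring
      · apply empty_sph
        have : {x : Ext Y | x ≠ ⊥ ∧ x < Ext.new i} = ∅ := by
          ext x
          simp only [mem_ofPred_eq, mem_empty_iff_false, iff_false, not_and]
          intro hx0 hx1
          rcases Ext.cases x with ⟨y, rfl⟩ | ⟨j, rfl⟩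
          · rw [Ext.old_lt_new] at hx1
            rw [Ext.old_ne_bot] at hx0
            exact hx0 hx1
          · exact Ext.new_lt_new hx1
        rw [this, geom_empty]

omit [Fintype Y] in
theorem proj_mono : Monotone (Ext.proj : Ext Y → Y) := by
  intro x z hxz
  rcases Ext.cases x with ⟨y, rfl⟩ | ⟨i, rfl⟩
  · rcases Ext.cases z with ⟨z, rfl⟩ | ⟨j, rfl⟩
    · exact hxz
    · rw [Ext.old_le_new] at hxz
      rw [hxz]
      exact bot_le
  · exact bot_le

omit [Fintype Y] in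
theorem rk_le (x : Ext Y) : Ext.rk ρ x ≤ ρ (Ext.proj x) := by
  rcases Ext.cases x with ⟨y, rfl⟩ | ⟨i, rfl⟩
  · by_cases hy : y = ⊥
    · subst hy
      rw [Ext.rk_old_bot, Ext.proj_old]
      linarith
    · rw [Ext.rk_old ρ hy, Ext.proj_old]
  · exact le_rfl

theorem strong_proj : Strong (Ext.rk ρ) ρ (Ext.proj : Ext Y → Y) := by
  refine ⟨proj_mono, fun y => ⟨Ext.old y, rfl⟩, rk_le, 1, ?_, fun y => ?_⟩
  · rw [Ext.rk_bot]
    push_cast
    ring
  · rw [cond_iff]
    refine ⟨?_, fun hy => ?_⟩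
    · exact (Ext.pair_susp (T := {x | x ≠ ⊥ ∧ Ext.proj x ≤ y}) (T' := {x | x ≠ ⊥ ∧ Ext.proj x ≤ y})
          (S := {z | z ≠ ⊥ ∧ z ≤ y}) (S' := {z | z ≠ ⊥ ∧ z ≤ y}) (by simp) (by simp)
          (by simp) (by simp) (by simp) (by simp)).nonempty
    · have hy' := bot_lt_iff_ne_bot.2 hy
      exact Ext.pair_susp (by simp) (by simp) (by simp) (by simp) (by simp) (by simpa using hy')

theorem IsCW.strict (h : IsCW Y ρ) {x y : Y} (hxy : x < y) : ρ x < ρ y := by
  induction x using WellFoundedGT.induction with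
  | ind x ih =>
    obtain ⟨c, hc, hcy⟩ := exists_covBy_le_of_lt hxy
    rcases hcy.eq_or_lt with rfl | hlt
    · rw [h.rank _ _ hc]
      linarith
    · have h1 := ih c hc.1 hlt
      rw [h.rank _ _ hc] at h1
      linarith

theorem IsCW.mono (h : IsCW Y ρ) {x y : Y} (hxy : x ≤ y) : ρ x ≤ ρ y := by
  rcases hxy.eq_or_lt with rfl | hlt
  · exact le_rfl
  · exact (h.strict hlt).le

end

section Sub

variable {P : Type} [Fintype P] [PartialOrder P]

theorem hm_sub (D : Set P) [Fintype D] (S S' : Set P) (hS : S ⊆ D) :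
    Hm (geom S) (geom S') (geom {p : D | (p : P) ∈ S}) (geom {p : D | (p : P) ∈ S'})
      (fun w p => w p) := by
  classical
  have hsum : ∀ w : P → ℝ, (∀ x, x ∉ D → w x = 0) → ∑ p : D, w p = ∑ x, w x := fun w hw =>
    Fintype.sum_of_injective (fun p : D => (p : P)) Subtype.val_injective _ _
      (fun x hx => hw x (by simpa using hx)) fun _ => rfl
  refine ⟨by fun_prop, ?_, ?_⟩
  · refine InvOn.bijOn (f' := fun v x => if h : x ∈ D then v ⟨x, h⟩ else 0) ⟨?_, ?_⟩ ?_ ?_
    · intro w hw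
      funext x
      by_cases hx : x ∈ D
      · simp [hx]
      · simp only [hx, dif_neg, not_false_iff]
        by_contra h
        exact hx (hS (hw.2.2.1 x (Ne.symm h)))
    · intro v _
      funext p
      simp
    · intro w hw
      refine ⟨fun p => hw.1 p, ?_, fun p hp => hw.2.2.1 p hp, fun p q hp hq => hw.2.2.2 p q hp hq⟩
      rw [hsum w, hw.2.1]
      intro x hx
      by_contra h
      exact hx (hS (hw.2.2.1 x h))
    · intro v hv
      have hv0 : ∀ x, ∀ h : x ∈ D, (if h : x ∈ D then v ⟨x, h⟩ else 0) = v ⟨x, h⟩ :=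
        fun x h => dif_pos h
      have hv1 : ∀ x, x ∉ D → (if h : x ∈ D then v ⟨x, h⟩ else 0) = 0 := fun x h => dif_neg h
      refine ⟨fun x => ?_, ?_, fun x hx => ?_, fun x y hx hy => ?_⟩
      · by_cases h : x ∈ D
        · simp only
          rw [hv0 x h]
          exact hv.1 _
        · simp only
          rw [hv1 x h]
      · rw [← hsum _ hv1, ← hv.2.1]
        exact Finset.sum_congr rfl fun p _ => hv0 p p.2
      · by_cases h : x ∈ D
        · simp only at hx
          rw [hv0 x h] at hx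
          exact hv.2.2.1 _ hx
        · simp only at hx
          rw [hv1 x h] at hx
          exact absurd rfl hx
      · by_cases h : x ∈ D
        · by_cases h' : y ∈ D
          · simp only at hx hy
            rw [hv0 x h] at hx
            rw [hv0 y h'] at hy
            exact hv.2.2.2 _ _ hx hy
          · simp only at hy
            rw [hv1 y h'] at hy
            exact absurd rfl hy
        · simp only at hx
          rw [hv1 x h] at hx
          exact absurd rfl hx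
  · intro w hw
    constructor
    · intro hw'
      refine ⟨fun p => hw.1 p, ?_, fun p hp => hw'.2.2.1 p hp, fun p q hp hq => hw.2.2.2 p q hp hq⟩
      rw [hsum w, hw.2.1]
      intro x hx
      by_contra h
      exact hx (hS (hw.2.2.1 x h))
    · intro hw'
      rw [mem_geom_of hw]
      intro x hx
      exact hw'.2.2.1 ⟨x, hS (hw.2.2.1 x hx)⟩ hx

theorem pair_sub (D : Set P) [Fintype D] (S S' : Set P) (hS : S ⊆ D) :
    PairHomeo (geom S) (geom S') (geom {p : D | (p : P) ∈ S}) (geom {p : D | (p : P) ∈ S'}) :=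
  (hm_sub D S S' hS).pair (isCompact_geom _)

theorem isCW_sub [OrderBot P] {ρ : P → ℤ} (h : IsCW P ρ) (D : Set P) [Fintype D] [OrderBot D]
    (h0 : ((⊥ : D) : P) = ⊥) (hD : IsLowerSet D) : IsCW D (fun p => ρ p) := by
  refine ⟨fun p q hpq => ?_, fun p hp => ?_⟩
  · refine h.rank _ _ ⟨hpq.1, fun c hc1 hc2 => ?_⟩
    exact hpq.2 (c := ⟨c, hD hc2.le q.2⟩) hc1 hc2
  · have hp' : (p : P) ≠ ⊥ := fun h' => hp (Subtype.ext (h'.trans h0.symm))
    obtain ⟨n, h1, h2⟩ := h.cell p hp'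
    refine ⟨n, ?_, ?_⟩
    · show ρ p = ρ ((⊥ : D) : P) + n + 1
      rw [h0]
      exact h1
    · obtain ⟨e⟩ := h2
      obtain ⟨e'⟩ := (pair_sub D {x | x ≠ ⊥ ∧ x < (p : P)} ∅ fun x hx => hD hx.2.le p.2).nonempty
      have hset : {q : D | q ≠ ⊥ ∧ q < p} = {q : D | (q : P) ∈ {x | x ≠ ⊥ ∧ x < (p : P)}} := by
        ext q
        simp only [mem_ofPred_eq, ne_eq, Subtype.ext_iff, h0, Subtype.coe_lt_coe]
      rw [hset]
      exact ⟨e'.symm.trans e⟩

end Sub

end Pool.Agent.CWS
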