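import Pool.Agent.Lib.CWS.E

/-!
# Extension of homeomorphisms over cells, gluing
-/

set_option autoImplicit false

namespace Pool.Agent.CWS

open Set Topology Filter

section PH

variable {E F G : Type} [TopologicalSpace E] [TopologicalSpace F] [TopologicalSpace G]
  {A A' : Set E} {B B' : Set F} {C C' : Set G}

theorem PairHomeo.exists_hm2 [Nonempty E] [Nonempty F] (h : PairHomeo A A' B B') :
    ∃ f f', Hm A A' B B' f ∧ Hm B B' A A' f' ∧ InvOn f' f A B := by
  classical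
  obtain ⟨h, hh⟩ := h
  let f : E → F := fun x => if hx : x ∈ A then (h ⟨x, hx⟩ : F) else Classical.arbitrary F
  let f' : F → E := fun x => if hx : x ∈ B then (h.symm ⟨x, hx⟩ : E) else Classical.arbitrary E
  have hf : ∀ x : A, f x = h x := fun x => by
    simp only [f, x.2, dif_pos]
  have hf' : ∀ x : B, f' x = h.symm x := fun x => by
    simp only [f', x.2, dif_pos]
  have i1 : LeftInvOn f' f A := fun x hx => by
    rw [hf ⟨x, hx⟩, hf', h.symm_apply_apply]
  have i2 : LeftInvOn f f' B := fun x hx => by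
    rw [hf' ⟨x, hx⟩, hf, h.apply_symm_apply]
  have m1 : MapsTo f A B := fun x hx => by
    rw [hf ⟨x, hx⟩]
    exact (h ⟨x, hx⟩).2
  have m2 : MapsTo f' B A := fun x hx => by
    rw [hf' ⟨x, hx⟩]
    exact (h.symm ⟨x, hx⟩).2
  have c1 : ContinuousOn f A := by
    rw [continuousOn_iff_continuous_domRestrict]
    have : A.domRestrict f = fun x => (h x : F) := by
      funext x
      exact hf x
    rw [this]
    exact continuous_subtype_val.comp h.continuous
  have c2 : ContinuousOn f' B := by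
    rw [continuousOn_iff_continuous_domRestrict]
    have : B.domRestrict f' = fun x => (h.symm x : E) := by
      funext x
      exact hf' x
    rw [this]
    exact continuous_subtype_val.comp h.symm.continuous
  refine ⟨f, f', ⟨c1, InvOn.bijOn ⟨i1, i2⟩ m1 m2, fun x hx => ?_⟩,
    ⟨c2, InvOn.bijOn ⟨i2, i1⟩ m2 m1, fun x hx => ?_⟩, ⟨i1, i2⟩⟩
  · rw [hf ⟨x, hx⟩]
    exact hh ⟨x, hx⟩
  · rw [hf' ⟨x, hx⟩]
    have := hh (h.symm ⟨x, hx⟩)
    rw [h.apply_symm_apply] at this
    exact this.symm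

theorem Hm.comp {f : E → F} {g : F → G} (hf : Hm A A' B B' f) (hg : Hm B B' C C' g) :
    Hm A A' C C' (fun x => g (f x)) :=
  ⟨hg.1.comp hf.1 hf.2.1.mapsTo, hg.2.1.comp hf.2.1, fun x hx =>
    (hf.2.2 x hx).trans (hg.2.2 _ (hf.2.1.mapsTo hx))⟩

theorem Hm.bij {f : E → F} (hf : Hm A A' B B' f) : BijOn f (A ∩ A') (B ∩ B') := by
  refine ⟨fun x hx => ⟨hf.2.1.mapsTo hx.1, (hf.2.2 x hx.1).1 hx.2⟩,
    hf.2.1.injOn.mono inter_subset_left, fun y hy => ?_⟩
  obtain ⟨x, hx, rfl⟩ := hf.2.1.surjOn hy.1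
  exact ⟨x, ⟨hx, (hf.2.2 x hx).2 hy.2⟩, rfl⟩

/-- Gluing. -/
theorem glue {A1 A2 : Set E} {B1 B2 : Set F} {f1 f2 : E → F} (hc1 : ContinuousOn f1 A1)
    (hc2 : ContinuousOn f2 A2) (hA1 : IsClosed A1) (hA2 : IsClosed A2) (hb1 : BijOn f1 A1 B1)
    (hb2 : BijOn f2 A2 B2) (he : ∀ x ∈ A1, x ∈ A2 → f1 x = f2 x)
    (h1 : ∀ x ∈ A1, x ∈ A2 ↔ f1 x ∈ B2) (h2 : ∀ x ∈ A2, x ∈ A1 ↔ f2 x ∈ B1) :
    ∃ f : E → F, ContinuousOn f (A1 ∪ A2) ∧ BijOn f (A1 ∪ A2) (B1 ∪ B2) ∧ (∀ x ∈ A1, f x = f1 x) ∧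
      (∀ x ∈ A2, f x = f2 x) ∧ (∀ x ∈ A1 ∪ A2, x ∈ A1 ↔ f x ∈ B1) ∧
      (∀ x ∈ A1 ∪ A2, x ∈ A2 ↔ f x ∈ B2) := by
  classical
  have e1 : ∀ x ∈ A1, A1.piecewise f1 f2 x = f1 x := fun x hx => piecewise_eq_of_mem _ _ _ hx
  have e2 : ∀ x ∈ A2, A1.piecewise f1 f2 x = f2 x := fun x hx => by
    by_cases h : x ∈ A1
    · rw [e1 x h, he x h hx]
    · exact piecewise_eq_of_notMem _ _ _ h
  refine ⟨A1.piecewise f1 f2, ?_, ⟨?_, ?_, ?_⟩, e1, e2, ?_, ?_⟩
  · exact (hc1.congr e1).union_of_isClosed (hc2.congr e2) hA1 hA2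
  · rintro x (hx | hx)
    · rw [e1 x hx]
      exact Or.inl (hb1.mapsTo hx)
    · rw [e2 x hx]
      exact Or.inr (hb2.mapsTo hx)
  · have key : ∀ x ∈ A1, ∀ y ∈ A2, f1 x = f2 y → x = y := by
      intro x hx y hy hxy
      have h3 : y ∈ A1 := by
        rw [h2 y hy, ← hxy]
        exact hb1.mapsTo hx
      rw [← he y h3 hy] at hxy
      exact hb1.injOn hx h3 hxy
    rintro x (hx | hx) y (hy | hy) hxy
    · rw [e1 x hx, e1 y hy] at hxy
      exact hb1.injOn hx hy hxy
    · rw [e1 x hx, e2 y hy] at hxy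
      exact key x hx y hy hxy
    · rw [e2 x hx, e1 y hy] at hxy
      exact (key y hy x hx hxy.symm).symm
    · rw [e2 x hx, e2 y hy] at hxy
      exact hb2.injOn hx hy hxy
  · rintro y (hy | hy)
    · obtain ⟨x, hx, rfl⟩ := hb1.surjOn hy
      exact ⟨x, Or.inl hx, e1 x hx⟩
    · obtain ⟨x, hx, rfl⟩ := hb2.surjOn hy
      exact ⟨x, Or.inr hx, e2 x hx⟩
  · rintro x (hx | hx)
    · rw [e1 x hx]
      exact iff_of_true hx (hb1.mapsTo hx)
    · rw [e2 x hx]
      exact h2 x hx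
  · rintro x (hx | hx)
    · rw [e1 x hx]
      exact h1 x hx
    · rw [e2 x hx]
      exact iff_of_true hx (hb2.mapsTo hx)

end PH

/-- The Alexander trick: a homeomorphism between the boundaries of two pairs which are
homeomorphic to the same cone extends. -/
theorem alexander {E F G : Type} [NormedAddCommGroup E] [NormedSpace ℝ E] [NormedAddCommGroup F]
    [NormedSpace ℝ F] [NormedAddCommGroup G] [NormedSpace ℝ G] {M : Set G} (hM : IsCompact M)
    {A A' : Set E} {B B' : Set F} (hA : A' ⊆ A) (hB : B' ⊆ B) (h1 : PairHomeo A A' (cone M) bs)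
    (h2 : PairHomeo B B' (cone M) bs) {κ : E → F} (hκ : ContinuousOn κ A')
    (hκ' : BijOn κ A' B') : ∃ K, Hm A A' B B' K ∧ ∀ x ∈ A', K x = κ x := by
  obtain ⟨a, a', ha, ha', hia⟩ := h1.exists_hm2
  obtain ⟨b, b', hb, hb', hib⟩ := h2.exists_hm2
  let ι : G → ℝ × G × ℝ := fun u => (1, u, 0)
  let π : ℝ × G × ℝ → G := fun p => p.2.1
  have hι : BijOn ι M (cone M ∩ bs) := by
    refine InvOn.bijOn (f' := π) ⟨fun u _ => rfl, ?_⟩ ?_ ?_
    · rintro ⟨s, u, v⟩ ⟨hp, hq⟩
      obtain ⟨-, -, -, hv⟩ := mem_cone.1 hp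
      have hs : s = 1 := hq
      rw [hs, hv]
    · intro u hu
      refine ⟨mem_cone.2 ⟨zero_le_one, le_rfl, ?_, rfl⟩, rfl⟩
      rw [mem_Cs one_ne_zero, inv_one, one_smul]
      exact hu
    · rintro ⟨s, u, v⟩ ⟨hp, hq⟩
      obtain ⟨-, -, hu, hv⟩ := mem_cone.1 hp
      have hs : s = 1 := hq
      rw [hs, mem_Cs one_ne_zero, inv_one, one_smul] at hu
      exact hu
  have hπι : ∀ p ∈ cone M ∩ bs, ι (π p) = p := by
    rintro ⟨s, u, v⟩ ⟨hp, hq⟩
    obtain ⟨-, -, -, hv⟩ := mem_cone.1 hp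
    have hs : s = 1 := hq
    rw [hs, hv]
  have hπ : BijOn π (cone M ∩ bs) M :=
    hι.symm ⟨fun p hp => hπι p hp, fun u _ => rfl⟩
  have ha'' : BijOn a' (cone M ∩ bs) A' := by
    have := ha'.bij
    rwa [inter_eq_right.2 hA] at this
  have hb'' : BijOn b B' (cone M ∩ bs) := by
    have := hb.bij
    rwa [inter_eq_right.2 hB] at this
  let g : G → G := fun u => π (b (κ (a' (ι u))))
  have hg : BijOn g M M := (hπ.comp (hb''.comp (hκ'.comp (ha''.comp hι))))
  have hgc : ContinuousOn g M := by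
    have c1 : ContinuousOn ι M := by fun_prop
    have c2 : ContinuousOn (fun u => a' (ι u)) M :=
      (ha'.1.mono inter_subset_left).comp c1 hι.mapsTo
    have c3 : ContinuousOn (fun u => κ (a' (ι u))) M :=
      hκ.comp c2 (ha''.mapsTo.comp hι.mapsTo)
    have c4 : ContinuousOn (fun u => b (κ (a' (ι u)))) M :=
      (hb.1.mono hB).comp c3 (hκ'.mapsTo.comp (ha''.mapsTo.comp hι.mapsTo))
    have c5 : Continuous π := by fun_prop
    exact c5.comp_continuousOn c4
  refine ⟨_, (ha.comp (hm_cone hgc hg hM)).comp hb', fun x hx => ?_⟩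
  have hax : a x ∈ cone M ∩ bs := ⟨ha.2.1.mapsTo (hA hx), (ha.2.2 x (hA hx)).1 hx⟩
  have e1 : a x = ι (π (a x)) := (hπι _ hax).symm
  have e2 : jm g id (a x) = ι (g (π (a x))) := by
    rw [e1]
    show ((1 : ℝ), sm g 1 (π (a x)), sm id (1 - 1) (0 : ℝ)) = (1, g (π (a x)), 0)
    rw [sub_self, sm_zero]
    unfold sm
    rw [inv_one, one_smul, one_smul]
  have e3 : g (π (a x)) = π (b (κ x)) := by
    show π (b (κ (a' (ι (π (a x)))))) = π (b (κ x))
    rw [← e1, hia.1 (hA hx)]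
  rw [e2, e3, hπι _ (hb''.mapsTo (hκ'.mapsTo hx))]
  exact hib.1 (hB (hκ'.mapsTo hx))

section Sets

variable {E F : Type} [NormedAddCommGroup E] [NormedSpace ℝ E] [NormedAddCommGroup F]
  [NormedSpace ℝ F]

theorem Cs_union (s : ℝ) (A B : Set E) : Cs s (A ∪ B) = Cs s A ∪ Cs s B := by
  ext u
  by_cases hs : s = 0
  · subst hs
    simp only [mem_union, mem_Cs_zero, or_self]
  · simp only [mem_union, mem_Cs hs]

theorem Cs_inter (s : ℝ) (A B : Set E) : Cs s (A ∩ B) = Cs s A ∩ Cs s B := by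
  ext u
  by_cases hs : s = 0
  · subst hs
    simp only [mem_inter_iff, mem_Cs_zero, and_self]
  · simp only [mem_inter_iff, mem_Cs hs]

theorem Cs_mono (s : ℝ) {A B : Set E} (h : A ⊆ B) : Cs s A ⊆ Cs s B := by
  rintro u (hu | ⟨a, ha, hu⟩)
  · exact Or.inl hu
  · exact Or.inr ⟨a, h ha, hu⟩

theorem join_union (A B : Set E) (D : Set F) : join (A ∪ B) D = join A D ∪ join B D := by
  ext ⟨s, u, v⟩
  simp only [mem_union, mem_join, Cs_union]
  tauto

theorem join_inter (A B : Set E) (D : Set F) : join (A ∩ B) D = join A D ∩ join B D := by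
  ext ⟨s, u, v⟩
  simp only [mem_inter_iff, mem_join, Cs_inter]
  tauto

theorem join_mono {A B : Set E} (h : A ⊆ B) (D : Set F) : join A D ⊆ join B D :=
  fun _ hp => ⟨hp.1, hp.2.1, Cs_mono _ h hp.2.2.1, hp.2.2.2⟩

end Sets

section Lower

variable {P Q : Type} [Fintype P] [PartialOrder P] [OrderBot P] [PartialOrder Q]

/-- The subcomplex of the cells which `f` maps into `J`. -/
def sub (f : P → Q) (J : Set Q) : Set (P → ℝ) := geom {x | x ≠ ⊥ ∧ f x ∈ J}

omit [PartialOrder Q] in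
theorem sub_mono (f : P → Q) {J J' : Set Q} (h : J ⊆ J') : sub f J ⊆ sub f J' :=
  geom_mono fun _ hx => ⟨hx.1, h hx.2⟩

theorem sub_union {f : P → Q} (hf : Monotone f) {J : Set Q} (hJ : IsLowerSet J) {y : Q}
    (hy : y ∈ J) (hmax : ∀ z ∈ J, y ≤ z → z = y) :
    sub f J = sub f (J \ {y}) ∪ sub f (Iic y) := by
  apply Subset.antisymm
  · intro w hw
    by_cases h : ∃ x, w x ≠ 0 ∧ f x = y
    · right
      obtain ⟨x, hx, hxy⟩ := h
      refine (mem_geom_of hw).2 fun z hz => ⟨(hw.2.2.1 z hz).1, ?_⟩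
      rcases hw.2.2.2 x z hx hz with h1 | h1
      · have h2 : y ≤ f z := by
          rw [← hxy]
          exact hf h1
        exact (hmax _ (hw.2.2.1 z hz).2 h2).le
      · have h2 : f z ≤ f x := hf h1
        rw [hxy] at h2
        exact h2
    · left
      push Not at h
      exact (mem_geom_of hw).2 fun z hz => ⟨(hw.2.2.1 z hz).1, (hw.2.2.1 z hz).2, h z hz⟩
  · rintro w (hw | hw)
    · exact sub_mono f sdiff_subset hw
    · exact sub_mono f (fun z hz => hJ hz hy) hw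

theorem sub_inter {f : P → Q} {J : Set Q} (hJ : IsLowerSet J) {y : Q} (hy : y ∈ J) :
    sub f (J \ {y}) ∩ sub f (Iic y) = sub f (Iio y) := by
  unfold sub
  rw [← geom_inter]
  congr 1
  ext x
  constructor
  · rintro ⟨⟨h1, h2, h3⟩, -, h4⟩
    exact ⟨h1, lt_of_le_of_ne h4 h3⟩
  · rintro ⟨h1, h2⟩
    have h2 : f x < y := h2
    exact ⟨⟨h1, hJ h2.le hy, h2.ne⟩, h1, h2.le⟩

end Lower

section Compat

variable {X Y : Type} [Fintype X] [PartialOrder X] [OrderBot X] [Fintype Y] [PartialOrder Y]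
  [OrderBot Y]

/-- The homeomorphisms over the closed cells can be chosen compatibly. -/
theorem compat {σ : X → Y} (hσ : Monotone σ) (r : ℕ)
    (h : ∀ y, Nonempty (sub σ (Iic y) ≃ₜ join (sub (id : Y → Y) (Iic y)) (bdSimplex r)) ∧
      (y ≠ ⊥ → PairHomeo (sub σ (Iic y)) (sub σ (Iio y))
        (join (sub (id : Y → Y) (Iic y)) (bdSimplex r))
        (join (sub (id : Y → Y) (Iio y)) (bdSimplex r)))) (n : ℕ) :
    ∀ I : Set Y, IsLowerSet I → ⊥ ∈ I → I.ncard = n →
      ∃ H : (X → ℝ) → ℝ × (Y → ℝ) × (Fin (r + 1) → ℝ), ContinuousOn H (sub σ I) ∧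
        BijOn H (sub σ I) (join (sub (id : Y → Y) I) (bdSimplex r)) ∧
        ∀ J : Set Y, IsLowerSet J → ⊥ ∈ J → J ⊆ I → ∀ w ∈ sub σ I,
          (w ∈ sub σ J ↔ H w ∈ join (sub (id : Y → Y) J) (bdSimplex r)) := by
  induction n with
  | zero =>
    intro I _ hI0 hn
    rw [Set.ncard_eq_zero (Set.toFinite I)] at hn
    rw [hn] at hI0
    exact absurd hI0 (notMem_empty _)
  | succ n ih =>
    intro I hI hI0 hn
    by_cases hbot : I = {⊥}
    · have e : (Iic (⊥ : Y)) = {⊥} := Iic_bot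
      obtain ⟨h1, -⟩ := h ⊥
      rw [e] at h1
      obtain ⟨f, hf⟩ := (pairHomeo_iff.2 h1).exists_hm
      subst hbot
      refine ⟨f, hf.1, hf.2.1, fun J _ hJ0 hJI w hw => ?_⟩
      have hJ : J = {⊥} := Subset.antisymm hJI (singleton_subset_iff.2 hJ0)
      rw [hJ]
      exact iff_of_true hw (hf.2.1.mapsTo hw)
    · obtain ⟨z, hzI, hz⟩ : ∃ z ∈ I, z ≠ ⊥ := by
        by_contra hcon
        push Not at hcon
        exact hbot (Subset.antisymm (fun z hz => hcon z hz) (singleton_subset_iff.2 hI0))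
      obtain ⟨y, hzy, hym⟩ := (Set.toFinite I).exists_le_maximal hzI
      have hyI : y ∈ I := hym.1
      have hy : y ≠ ⊥ := by
        rintro rfl
        exact hz (le_bot_iff.1 hzy)
      have hmax : ∀ z ∈ I, y ≤ z → z = y := fun z hz' hyz => le_antisymm (hym.2 hz' hyz) hyz
      have hI' : IsLowerSet (I \ {y}) := by
        rintro a b hba ⟨haI, hay⟩
        refine ⟨hI hba haI, ?_⟩
        rintro rfl
        exact hay (hmax a haI hba)
      have hI0' : ⊥ ∈ I \ {y} := ⟨hI0, hy.symm⟩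
      have hIio : Iio y ⊆ I \ {y} := fun a ha => ⟨hI ha.le hyI, ha.ne⟩
      obtain ⟨H', c', b', p'⟩ := ih (I \ {y}) hI' hI0' (by
        rw [Set.ncard_sdiff_singleton_of_mem hyI, hn]
        rfl)
      have hH' : Hm (sub σ (I \ {y})) (sub σ (Iio y))
          (join (sub (id : Y → Y) (I \ {y})) (bdSimplex r))
          (join (sub (id : Y → Y) (Iio y)) (bdSimplex r)) H' :=
        ⟨c', b', p' (Iio y) (isLowerSet_Iio y) (bot_lt_iff_ne_bot.2 hy) hIio⟩
      have hb' := hH'.bij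
      rw [inter_eq_right.2 (sub_mono σ hIio),
        inter_eq_right.2 (join_mono (sub_mono _ hIio) _)] at hb'
      have hcone : PairHomeo (join (sub (id : Y → Y) (Iic y)) (bdSimplex r))
          (join (sub (id : Y → Y) (Iio y)) (bdSimplex r))
          (cone (join (sub (id : Y → Y) (Iio y)) (bdSimplex r))) bs := cell_join_cone y hy r
      obtain ⟨K, hK, hK'⟩ := alexander (isCompact_join (isCompact_geom _) (isCompact_bdSimplex r))
        (sub_mono σ Iio_subset_Iic_self) (join_mono (sub_mono _ Iio_subset_Iic_self) _)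
        (((h y).2 hy).trans hcone) hcone (c'.mono (sub_mono σ hIio)) hb'
      have hi : sub σ (I \ {y}) ∩ sub σ (Iic y) = sub σ (Iio y) := sub_inter hI hyI
      have hj : join (sub (id : Y → Y) (I \ {y})) (bdSimplex r) ∩
          join (sub (id : Y → Y) (Iic y)) (bdSimplex r) =
          join (sub (id : Y → Y) (Iio y)) (bdSimplex r) := by
        rw [← join_inter, sub_inter hI hyI]
      obtain ⟨f, f1, f2, f3, f4, f5, f6⟩ := glue (f1 := H') (f2 := K) c' hK.1
        (isCompact_geom _).isClosed (isCompact_geom _).isClosed b' hK.2.1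
        (fun x hx hx' => by
          have : x ∈ sub σ (Iio y) := by
            rw [← hi]
            exact ⟨hx, hx'⟩
          exact (hK' x this).symm)
        (fun x hx => by
          have h1 := hH'.2.2 x hx
          rw [← hi, ← hj] at h1
          have h2 := b'.mapsTo hx
          constructor
          · intro h3
            exact (h1.1 ⟨hx, h3⟩).2
          · intro h3
            exact (h1.2 ⟨h2, h3⟩).2)
        (fun x hx => by
          have h1 := hK.2.2 x hx
          rw [← hi, ← hj] at h1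
          have h2 := hK.2.1.mapsTo hx
          constructor
          · intro h3
            exact (h1.1 ⟨h3, hx⟩).1
          · intro h3
            exact (h1.2 ⟨h3, h2⟩).1)
      have eA : sub σ I = sub σ (I \ {y}) ∪ sub σ (Iic y) := sub_union hσ hI hyI hmax
      have eB : join (sub (id : Y → Y) I) (bdSimplex r) =
          join (sub (id : Y → Y) (I \ {y})) (bdSimplex r) ∪
          join (sub (id : Y → Y) (Iic y)) (bdSimplex r) := by
        rw [← join_union, ← sub_union monotone_id hI hyI hmax]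
      rw [← eA, ← eB] at f2
      rw [← eA] at f1 f5 f6
      have claim : ∀ J : Set Y, IsLowerSet J → ⊥ ∈ J → J ⊆ I → y ∉ J → ∀ w ∈ sub σ I,
          (w ∈ sub σ J ↔ f w ∈ join (sub (id : Y → Y) J) (bdSimplex r)) := by
        intro J hJ hJ0 hJI hyJ w hw
        have hJI' : J ⊆ I \ {y} := fun a ha => ⟨hJI ha, by
          rintro rfl
          exact hyJ ha⟩
        by_cases hw1 : w ∈ sub σ (I \ {y})
        · rw [f3 w hw1]
          exact p' J hJ hJ0 hJI' w hw1
        · refine iff_of_false (fun h' => hw1 (sub_mono σ hJI' h')) fun h' => hw1 ?_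
          rw [f5 w hw]
          exact join_mono (sub_mono _ hJI') _ h'
      refine ⟨f, f1, f2, fun J hJ hJ0 hJI w hw => ?_⟩
      by_cases hyJ : y ∈ J
      · have hmaxJ : ∀ z ∈ J, y ≤ z → z = y := fun z hz' => hmax z (hJI hz')
        have hJ' : IsLowerSet (J \ {y}) := by
          rintro a b hba ⟨haJ, hay⟩
          refine ⟨hJ hba haJ, ?_⟩
          rintro rfl
          exact hay (hmaxJ a haJ hba)
        rw [sub_union hσ hJ hyJ hmaxJ, sub_union monotone_id hJ hyJ hmaxJ, join_union, mem_union,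
          mem_union, claim (J \ {y}) hJ' ⟨hJ0, hy.symm⟩ (sdiff_subset.trans hJI)
            (fun h' => h'.2 rfl) w hw, f6 w hw]
      · exact claim J hJ hJ0 hJI hyJ w hw

/-- A strong CW-regular subdivision is, over each pair of subcomplexes, a join. -/
theorem Strong.pair {ρX : X → ℤ} {ρY : Y → ℤ} {σ : X → Y} (hs : Strong ρX ρY σ) :
    ∃ r : ℕ, ρY ⊥ = ρX ⊥ + r ∧ ∀ I J : Set Y, IsLowerSet I → IsLowerSet J → ⊥ ∈ J → J ⊆ I →
      PairHomeo (sub σ I) (sub σ J) (join (sub (id : Y → Y) I) (bdSimplex r))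
        (join (sub (id : Y → Y) J) (bdSimplex r)) := by
  obtain ⟨h1, -, -, r, h2, h3⟩ := hs
  refine ⟨r, h2, fun I J hI hJ hJ0 hJI => ?_⟩
  obtain ⟨H, H1, H2, H3⟩ := compat h1 r (fun y => cond_iff.1 (h3 y)) _ I hI (hJI hJ0) rfl
  exact Hm.pair ⟨H1, H2, H3 J hJ hJ0 hJI⟩ (isCompact_geom _)

end Compat

end Pool.Agent.CWS
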