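import Pool.Agent.Lib.CWS.F

/-!
# Cancellation and desuspension
-/

set_option autoImplicit false

namespace Pool.Agent.CWS

open Set Topology Filter

theorem bdSimplex_zero : bdSimplex 0 = ∅ := by
  ext v
  simp only [mem_empty_iff_false, iff_false]
  rintro ⟨-, h2, i, h3⟩
  have hi : i = 0 := Fin.ext (by omega)
  subst hi
  rw [Fin.sum_univ_one, h3] at h2
  exact zero_ne_one h2

theorem bot_join {Z : Type} [Fintype Z] [PartialOrder Z] [OrderBot Z] (R : ℕ) :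
    Nonempty (join (geom {z : Z | z ≠ ⊥ ∧ z ≤ ⊥}) (bdSimplex R) ≃ₜ Sph R) := by
  have h1 : {z : Z | z ≠ ⊥ ∧ z ≤ ⊥} = ∅ := by
    ext z
    simp
  rw [h1, geom_empty]
  obtain ⟨e⟩ := bdSimplex_sph R
  obtain ⟨e'⟩ := ((hm_empty_join (E := Z → ℝ) (bdSimplex R) ∅).pair
    (isCompact_join isCompact_empty (isCompact_bdSimplex R))).nonempty
  exact ⟨e'.trans e⟩

theorem susp_step {E : Type} [NormedAddCommGroup E] [NormedSpace ℝ E] {A : Set E} (A' : Set E)
    (hA : IsCompact A) (r : ℕ) :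
    PairHomeo (join A (bdSimplex (r + 1))) (join A' (bdSimplex (r + 1)))
      (join (join A (bdSimplex 1)) (bdSimplex r)) (join (join A' (bdSimplex 1)) (bdSimplex r)) := by
  obtain ⟨e1⟩ := bdSimplex_sph (r + 1)
  have h2 := join_sph' (isCompact_bdSimplex 1) (isCompact_bdSimplex r) (bdSimplex_sph 1)
    (bdSimplex_sph r)
  rw [add_comm 1 r] at h2
  obtain ⟨e2⟩ := h2
  exact ((PairHomeo.refl A A').join_congr ⟨e1.trans e2.symm⟩ hA hA (isCompact_bdSimplex _)
    (isCompact_join (isCompact_bdSimplex 1) (isCompact_bdSimplex r))).trans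
    ((hm_assoc A A' (bdSimplex 1) (bdSimplex r)).pair (isCompact_join hA
      (isCompact_join (isCompact_bdSimplex 1) (isCompact_bdSimplex r))))

theorem ext_pair {L : Type} [Fintype L] [PartialOrder L] [OrderBot L] (C : Set L) (hC0 : ⊥ ∈ C) :
    PairHomeo (geom {x : Ext L | x ≠ ⊥}) (geom {x : Ext L | x ≠ ⊥ ∧ Ext.proj x ∈ C})
      (join (geom {x : L | x ≠ ⊥}) (bdSimplex 1))
      (join (geom {x : L | x ≠ ⊥ ∧ x ∈ C}) (bdSimplex 1)) :=
  Ext.pair_susp (by simp) (by simp) (by simp) (by simp) (by simp) (by simpa using hC0)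

theorem sphere_r {D : ℕ} (h : SphereDesuspension D) (r : ℕ) :
    ∀ (L : Type) [Fintype L] [PartialOrder L] [OrderBot L] (ρ : L → ℤ) (m : ℕ), m + r ≤ D + 1 →
      IsCW L ρ → (∀ x, ρ x ≤ ρ ⊥ + m) →
      Nonempty (join (geom {x : L | x ≠ ⊥}) (bdSimplex r) ≃ₜ Sph (m + r)) →
      Nonempty (geom {x : L | x ≠ ⊥} ≃ₜ Sph m) := by
  induction r with
  | zero =>
    intro L _ _ _ ρ m _ _ _ hs
    rw [bdSimplex_zero] at hs
    obtain ⟨e⟩ := hs
    obtain ⟨e'⟩ := ((hm_join_empty (F := Fin (0 + 1) → ℝ) (geom {x : L | x ≠ ⊥}) ∅).pair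
      (isCompact_join (isCompact_geom _) isCompact_empty)).nonempty
    exact ⟨e'.symm.trans e⟩
  | succ r ih =>
    intro L _ _ _ ρ m hD hL hρ hs
    refine h L ρ m (by omega) hL hρ ?_
    obtain ⟨e1⟩ := (ext_pair (L := L) univ (mem_univ _)).nonempty
    have h2 := ih (Ext L) (Ext.rk ρ) (m + 1) (by omega) (isCW_ext hL) (fun x => by
      have h3 := rk_le (ρ := ρ) x
      have h4 := hρ (Ext.proj x)
      rw [Ext.rk_bot]
      push_cast
      linarith) (by
      obtain ⟨e⟩ := hs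
      obtain ⟨e2⟩ := (susp_step (A := geom {x : L | x ≠ ⊥}) ∅ (isCompact_geom _) r).nonempty
      obtain ⟨e3⟩ := ((ext_pair (L := L) univ (mem_univ _)).join_congr
        ⟨Homeomorph.refl (bdSimplex r)⟩ (isCompact_geom _)
        (isCompact_join (isCompact_geom _) (isCompact_bdSimplex 1)) (isCompact_bdSimplex r)
        (isCompact_bdSimplex r)).nonempty
      rw [show m + 1 + r = m + (r + 1) by ring]
      exact ⟨e3.trans (e2.symm.trans e)⟩)
    obtain ⟨e4⟩ := h2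
    exact ⟨e1.symm.trans e4⟩

theorem ball_r {D : ℕ} (h : BallDesuspension D) (r : ℕ) :
    ∀ (L : Type) [Fintype L] [PartialOrder L] [OrderBot L] (ρ : L → ℤ) (C : Set L) (m : ℕ),
      m + r ≤ D → IsCW L ρ → IsLowerSet C → ⊥ ∈ C → (∀ x, ρ x ≤ ρ ⊥ + m + 1) → (∀ x ∈ C, ρ x ≤ ρ ⊥ + m) →
      PairHomeo (join (geom {x : L | x ≠ ⊥}) (bdSimplex r))
        (join (geom {x | x ≠ ⊥ ∧ x ∈ C}) (bdSimplex r)) (Bal (m + r)) (Sph (m + r)) →
      PairHomeo (geom {x : L | x ≠ ⊥}) (geom {x | x ≠ ⊥ ∧ x ∈ C}) (Bal m) (Sph m) := by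
  induction r with
  | zero =>
    intro L _ _ _ ρ C m _ _ _ _ _ _ hs
    rw [bdSimplex_zero] at hs
    exact ((hm_join_empty (F := Fin (0 + 1) → ℝ) (geom {x : L | x ≠ ⊥}) _).pair
      (isCompact_join (isCompact_geom _) isCompact_empty)).symm.trans hs
  | succ r ih =>
    intro L _ _ _ ρ C m hD hL hC hC0 hρ hρC hs
    refine h L ρ C m (by omega) hL hC hC0 hρ hρC ?_
    have e1 := ext_pair C hC0
    refine e1.symm.trans ?_
    refine ih (Ext L) (Ext.rk ρ) {x | Ext.proj x ∈ C} (m + 1) (by omega) (isCW_ext hL)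
      (fun a b hab ha => hC (proj_mono hab) ha) hC0 (fun x => ?_) (fun x hx => ?_) ?_
    · have h3 := rk_le (ρ := ρ) x
      have h4 := hρ (Ext.proj x)
      rw [Ext.rk_bot]
      push_cast
      linarith
    · have h3 := rk_le (ρ := ρ) x
      have h4 := hρC (Ext.proj x) hx
      rw [Ext.rk_bot]
      push_cast
      linarith
    · have e2 := susp_step (A := geom {x : L | x ≠ ⊥}) (geom {x : L | x ≠ ⊥ ∧ x ∈ C})
        (isCompact_geom _) r
      have e3 := (ext_pair C hC0).join_congr ⟨Homeomorph.refl (bdSimplex r)⟩ (isCompact_geom _)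
        (isCompact_join (isCompact_geom _) (isCompact_bdSimplex 1)) (isCompact_bdSimplex r)
        (isCompact_bdSimplex r)
      rw [show m + 1 + r = m + (r + 1) by ring]
      exact e3.trans (e2.symm.trans hs)

theorem sub_pair {Y : Type} [Fintype Y] [PartialOrder Y] [OrderBot Y] (I J : Set Y) [Fintype I]
    [OrderBot I] (h0 : ((⊥ : I) : Y) = ⊥) :
    PairHomeo (sub (id : Y → Y) I) (sub (id : Y → Y) J) (geom {p : I | p ≠ ⊥})
      (geom {p : I | p ≠ ⊥ ∧ p ∈ {p : I | (p : Y) ∈ J}}) := by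
  have h := pair_sub I {y | y ≠ ⊥ ∧ y ∈ I} {y | y ≠ ⊥ ∧ y ∈ J} fun y hy => hy.2
  have e1 : {p : I | (p : Y) ∈ {y | y ≠ ⊥ ∧ y ∈ I}} = {p : I | p ≠ ⊥} := by
    ext p
    simp only [mem_ofPred_eq, ne_eq, Subtype.ext_iff, h0, p.2, and_true]
  have e2 : {p : I | (p : Y) ∈ {y | y ≠ ⊥ ∧ y ∈ J}} =
      {p : I | p ≠ ⊥ ∧ p ∈ {p : I | (p : Y) ∈ J}} := by
    ext p
    simp only [mem_ofPred_eq, ne_eq, Subtype.ext_iff, h0]
  rw [e1, e2] at h
  exact h

theorem cancellation_of {D : ℕ} (hS : SphereDesuspension D) (hB : BallDesuspension D) :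
    CancellationUpTo D := by
  intro X Y Z _ _ _ _ _ _ _ _ _ ρX ρY ρZ σ τ hD hX hY hZ hσ hσρ hτ hτρ hs ht
  obtain ⟨r, hr, hp⟩ := hs.pair
  obtain ⟨-, hsurj, -, R, hR, hh⟩ := ht
  have hτs : Function.Surjective τ := fun z => by
    obtain ⟨x, hx⟩ := hsurj z
    exact ⟨σ x, hx⟩
  have hτ0 : τ ⊥ = ⊥ := by
    obtain ⟨y, hy⟩ := hτs ⊥
    exact le_bot_iff.1 (hy ▸ hτ bot_le)
  have hrR : r ≤ R := by
    have := hτρ ⊥
    rw [hτ0] at this
    omega
  obtain ⟨k, rfl⟩ : ∃ k, R = k + r := ⟨R - r, by omega⟩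
  have hk : ρZ ⊥ = ρY ⊥ + k := by
    push_cast at hR
    linarith
  have hle : ∀ y, ρY y ≤ ρZ (τ y) := hτρ
  refine ⟨hτ, hτs, hτρ, k, hk, fun z => cond_iff.2 ?_⟩
  have hI : IsLowerSet {y | τ y ≤ z} := fun a b hab ha => (hτ hab).trans ha
  have hI0 : ⊥ ∈ {y | τ y ≤ z} := by
    show τ ⊥ ≤ z
    rw [hτ0]
    exact bot_le
  have : Fintype {y | τ y ≤ z} := Fintype.ofFinite _
  let _ : OrderBot {y | τ y ≤ z} := { bot := ⟨⊥, hI0⟩, bot_le := fun p => bot_le (a := (p : Y)) }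
  have hb : (((⊥ : {y | τ y ≤ z})) : Y) = ⊥ := rfl
  have hcw := isCW_sub hY {y | τ y ≤ z} hb hI
  by_cases hz : z = ⊥
  · subst hz
    refine ⟨?_, fun h => absurd rfl h⟩
    have hρ : ∀ p : {y | τ y ≤ (⊥ : Z)}, ρY p ≤ ρY ((⊥ : {y | τ y ≤ (⊥ : Z)}) : Y) + k := by
      intro p
      have h1 := hle p
      have h2 : τ p = ⊥ := le_bot_iff.1 p.2
      rw [h2] at h1
      rw [hb]
      linarith
    have h1 := sub_pair {y | τ y ≤ (⊥ : Z)} ∅ hb
    have h2 := hp _ _ hI hI hI0 subset_rfl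
    obtain ⟨h3, -⟩ := hh ⊥
    obtain ⟨e4⟩ := bot_join (Z := Z) (k + r)
    obtain ⟨e2⟩ := h2.nonempty
    obtain ⟨e1⟩ := (h1.join_congr ⟨Homeomorph.refl (bdSimplex r)⟩ (isCompact_geom _)
      (isCompact_geom _) (isCompact_bdSimplex r) (isCompact_bdSimplex r)).nonempty
    have hD0 : k + r ≤ D + 1 := by
      have := hD ⊥
      omega
    obtain ⟨e5⟩ := sphere_r hS r {y | τ y ≤ (⊥ : Z)} (fun p => ρY p) k hD0 hcw hρ
      ⟨e1.symm.trans (e2.symm.trans (h3.trans e4))⟩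
    obtain ⟨e6⟩ := bot_join (Z := Z) k
    obtain ⟨e7⟩ := h1.nonempty
    exact ⟨(e7.trans e5).trans e6.symm⟩
  · obtain ⟨n, hn, hcell⟩ := cell_join_ball hZ z hz
    have hJ : IsLowerSet {y | τ y < z} := fun a b hab ha => (hτ hab).trans_lt ha
    have hJ0 : ⊥ ∈ {y | τ y < z} := by
      show τ ⊥ < z
      rw [hτ0]
      exact bot_lt_iff_ne_bot.2 hz
    have hρ : ∀ p : {y | τ y ≤ z}, ρY p ≤ ρY ((⊥ : {y | τ y ≤ z}) : Y) + (n + k : ℕ) + 1 := by
      intro p
      have h1 := hle p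
      have h2 : ρZ (τ p) ≤ ρZ z := hZ.mono p.2
      rw [hb]
      push_cast
      linarith
    have hρ' : ∀ p ∈ {p : {y | τ y ≤ z} | (p : Y) ∈ {y | τ y < z}},
        ρY p ≤ ρY ((⊥ : {y | τ y ≤ z}) : Y) + (n + k : ℕ) := by
      intro p hp'
      have h1 := hle p
      have h2 : ρZ (τ p) < ρZ z := hZ.strict hp'
      rw [hb]
      push_cast
      linarith
    have h1 := sub_pair {y | τ y ≤ z} {y | τ y < z} hb
    have h2 := hp {y | τ y ≤ z} {y | τ y < z} hI hJ hJ0 fun y hy => le_of_lt hy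
    obtain ⟨h3, h3'⟩ := hh z
    have h4 : PairHomeo (sub σ {y | τ y ≤ z}) (sub σ {y | τ y < z}) _ _ := ⟨h3, h3' hz⟩
    have h5 := hcell (k + r)
    have h6 := h1.join_congr ⟨Homeomorph.refl (bdSimplex r)⟩ (isCompact_geom _)
      (isCompact_geom _) (isCompact_bdSimplex r) (isCompact_bdSimplex r)
    have h7 := h6.symm.trans (h2.symm.trans (h4.trans h5))
    rw [show n + (k + r) = n + k + r by ring] at h7
    have hD1 : n + k + r ≤ D := by
      have := hD z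
      push_cast at hR
      omega
    have h8 := ball_r hB r {y | τ y ≤ z} (fun p => ρY p) {p | (p : Y) ∈ {y | τ y < z}} (n + k) hD1
      hcw
      (fun a b hab ha => hJ hab ha) hJ0 hρ hρ' h7
    have h9 := (h1.trans h8).trans (hcell k).symm
    exact ⟨h9.nonempty, fun _ => h9⟩

theorem isCW_unit (c : ℤ) : IsCW Unit (fun _ => c) :=
  ⟨fun _ _ h => absurd h.1 (lt_irrefl _), fun _ h => absurd rfl h⟩

theorem isCW_bool (c : ℤ) : IsCW Bool (fun b => bif b then c + 1 else c) := by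
  refine ⟨fun x y h => ?_, fun y hy => ⟨0, ?_, ?_⟩⟩
  · have h1 := h.1
    rcases x with _ | _
    · rcases y with _ | _
      · exact absurd h1 (lt_irrefl _)
      · rfl
    · rcases y with _ | _
      · exact absurd h1 (by decide)
      · exact absurd h1 (lt_irrefl _)
  · rcases y with _ | _
    · exact absurd rfl hy
    · show c + 1 = c + ((0 : ℕ) : ℤ) + 1
      simp
  · apply empty_sph
    have : {x : Bool | x ≠ ⊥ ∧ x < y} = ∅ := by
      ext x
      simp only [mem_ofPred_eq, mem_empty_iff_false, iff_false, not_and]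
      intro h1 h2
      rcases x with _ | _
      · exact h1 rfl
      · rcases y with _ | _
        · exact absurd h2 (by decide)
        · exact lt_irrefl _ h2
    rw [this, geom_empty]

theorem sphere_of_cancellation {D : ℕ} (h : CancellationUpTo D) : SphereDesuspension D := by
  intro L _ _ _ ρ m hD hL hρ hs
  have h1 : ∀ x : Ext L, Ext.rk ρ x ≤ ρ ⊥ + m := fun x => (rk_le x).trans (hρ _)
  have h2 : Strong (Ext.rk ρ) (fun _ : Unit => ρ ⊥ + m) ((fun _ : L => ()) ∘ Ext.proj) := by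
    refine ⟨fun _ _ _ => le_rfl, fun _ => ⟨⊥, rfl⟩, h1, m + 1, ?_, fun z => cond_iff.2
      ⟨?_, fun h' => absurd rfl h'⟩⟩
    · rw [Ext.rk_bot]
      push_cast
      ring
    · have e1 : {x : Ext L | x ≠ ⊥ ∧ ((fun _ : L => ()) ∘ Ext.proj) x ≤ z} = {x | x ≠ ⊥} := by
        ext x
        simp
      rw [e1]
      obtain ⟨e2⟩ := (ext_pair (L := L) univ (mem_univ _)).nonempty
      obtain ⟨e3⟩ := hs
      obtain ⟨e4⟩ := bot_join (Z := Unit) (m + 1)
      exact ⟨(e2.trans e3).trans e4.symm⟩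
  obtain ⟨-, -, -, r, hr, hh⟩ := h (Ext L) L Unit (Ext.rk ρ) ρ (fun _ => ρ ⊥ + m) Ext.proj
    (fun _ => ()) (fun _ => by
      rw [Ext.rk_bot]
      omega) (isCW_ext hL) hL (isCW_unit _) proj_mono rk_le (fun _ _ _ => le_rfl) hρ
    strong_proj h2
  have hr' : r = m := by
    have : ρ ⊥ + m = ρ ⊥ + r := hr
    omega
  subst hr'
  obtain ⟨e1, -⟩ := hh ⊥
  obtain ⟨e2⟩ := bot_join (Z := Unit) r
  have e3 : {x : L | x ≠ ⊥ ∧ (fun _ : L => ()) x ≤ ⊥} = {x | x ≠ ⊥} := by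
    ext x
    simp
  rw [e3] at e1
  exact ⟨e1.trans e2⟩

theorem ball_of_cancellation {D : ℕ} (h : CancellationUpTo D) : BallDesuspension D := by
  classical
  intro L _ _ _ ρ C m hD hL hC hC0 hρ hρC hs
  obtain ⟨y0, hy0⟩ : ∃ y, y ∉ C := by
    by_contra hcon
    push Not at hcon
    obtain ⟨k, hk⟩ := hs
    have h0 : (0 : EuclideanSpace ℝ (Fin (m + 1))) ∈ Bal (m + 1) := by simp
    have h1 := hk (k.symm ⟨0, h0⟩)
    rw [k.apply_symm_apply] at h1
    have h2 : {x : L | x ≠ ⊥ ∧ x ∈ C} = {x | x ≠ ⊥} := by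
      ext x
      simp [hcon x]
    rw [h2] at h1
    have h3 := h1.1 (k.symm ⟨0, h0⟩).2
    rw [mem_sphere_zero_iff_norm, norm_zero] at h3
    exact zero_ne_one h3
  let τ : L → Bool := fun y => decide (y ∉ C)
  have hτ1 : ∀ y, y ∈ C → τ y = false := fun y hy => by simp [τ, hy]
  have hτ2 : ∀ y, y ∉ C → τ y = true := fun y hy => by simp [τ, hy]
  have hbot : (⊥ : Bool) = false := rfl
  have hle : ∀ y, τ y ≤ false ↔ y ∈ C := fun y => by
    by_cases hy : y ∈ C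
    · rw [hτ1 y hy]
      exact iff_of_true le_rfl hy
    · rw [hτ2 y hy]
      exact iff_of_false (by decide) hy
  have hlt : ∀ y, τ y < true ↔ y ∈ C := fun y => by
    by_cases hy : y ∈ C
    · rw [hτ1 y hy]
      exact iff_of_true (by decide) hy
    · rw [hτ2 y hy]
      exact iff_of_false (lt_irrefl _) hy
  have hle' : ∀ b : Bool, b ≤ true := fun b => Bool.le_true b
  have hτ : Monotone τ := by
    intro a b hab
    by_cases hb : b ∈ C
    · rw [hτ1 a (hC hab hb), hτ1 b hb]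
    · rw [hτ2 b hb]
      exact hle' _
  let ρZ : Bool → ℤ := fun b => bif b then ρ ⊥ + m + 1 else ρ ⊥ + m
  have hZ : IsCW Bool ρZ := isCW_bool (ρ ⊥ + m)
  have hτρ : ∀ y, ρ y ≤ ρZ (τ y) := by
    intro y
    by_cases hy : y ∈ C
    · rw [hτ1 y hy]
      exact hρC y hy
    · rw [hτ2 y hy]
      exact hρ y
  have hcell : ∀ r : ℕ, PairHomeo (join (geom {x : Bool | x ≠ ⊥ ∧ x ≤ true}) (bdSimplex r))
      (join (geom {x : Bool | x ≠ ⊥ ∧ x < true}) (bdSimplex r)) (Bal r) (Sph r) := by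
    intro r
    obtain ⟨n, hn, hn'⟩ := cell_join_ball hZ true (by decide)
    have hn0 : n = 0 := by
      have : ρ ⊥ + m + 1 = ρ ⊥ + m + n + 1 := hn
      omega
    subst hn0
    have := hn' r
    rwa [zero_add] at this
  have h2 : Strong (Ext.rk ρ) ρZ (τ ∘ Ext.proj) := by
    refine ⟨hτ.comp proj_mono, ?_, fun x => (rk_le x).trans (hτρ _), m + 1, ?_,
      fun z => cond_iff.2 ?_⟩
    · intro b
      rcases b with _ | _
      · exact ⟨Ext.old ⊥, hτ1 _ hC0⟩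
      · exact ⟨Ext.old y0, hτ2 _ hy0⟩
    · show ρ ⊥ + (m : ℤ) = _
      rw [Ext.rk_bot]
      push_cast
      ring
    · rcases z with _ | _
      · refine ⟨?_, fun h' => absurd rfl h'⟩
        obtain ⟨e1⟩ := (ext_pair C hC0).restrict (geom_mono fun x hx => hx.1)
          (join_mono (geom_mono fun x hx => hx.1) _)
        obtain ⟨e2⟩ := hs.restrict (join_mono (geom_mono fun x hx => hx.1) _)
          Metric.sphere_subset_closedBall
        obtain ⟨e3⟩ := bot_join (Z := Bool) (m + 1)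
        have e4 : {x : Ext L | x ≠ ⊥ ∧ (τ ∘ Ext.proj) x ≤ false} =
            {x | x ≠ ⊥ ∧ Ext.proj x ∈ C} := by
          ext x
          simp only [mem_ofPred_eq, Function.comp_apply, hle]
        rw [e4]
        exact ⟨(e1.trans e2).trans e3.symm⟩
      · have e4 : {x : Ext L | x ≠ ⊥ ∧ (τ ∘ Ext.proj) x < true} =
            {x | x ≠ ⊥ ∧ Ext.proj x ∈ C} := by
          ext x
          simp only [mem_ofPred_eq, Function.comp_apply, hlt]
        have e5 : {x : Ext L | x ≠ ⊥ ∧ (τ ∘ Ext.proj) x ≤ true} = {x | x ≠ ⊥} := by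
          ext x
          simp only [mem_ofPred_eq, hle', and_true]
        rw [e4, e5]
        have e6 := ((ext_pair C hC0).trans hs).trans (hcell (m + 1)).symm
        exact ⟨e6.nonempty, fun _ => e6⟩
  have hD' : ∀ b, ρZ b ≤ Ext.rk ρ ⊥ + D + 1 := by
    intro b
    rw [Ext.rk_bot]
    rcases b with _ | _
    · show ρ ⊥ + (m : ℤ) ≤ _
      omega
    · show ρ ⊥ + (m : ℤ) + 1 ≤ _
      omega
  obtain ⟨-, -, -, r, hr, hh⟩ := h (Ext L) L Bool (Ext.rk ρ) ρ ρZ Ext.proj τ hD' (isCW_ext hL) hL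
    hZ proj_mono rk_le hτ hτρ strong_proj h2
  have hr' : r = m := by
    have : ρ ⊥ + m = ρ ⊥ + r := hr
    omega
  subst hr'
  have h5 := (cond_iff.1 (hh true)).2 (by decide)
  have e4 : {x : L | x ≠ ⊥ ∧ τ x < true} = {x | x ≠ ⊥ ∧ x ∈ C} := by
    ext x
    simp only [mem_ofPred_eq, hlt]
  have e5 : {x : L | x ≠ ⊥ ∧ τ x ≤ true} = {x | x ≠ ⊥} := by
    ext x
    simp only [mem_ofPred_eq, hle', and_true]
  rw [e4, e5] at h5
  exact h5.trans (hcell r)

theorem cancellation_iff : Cancellation ↔ ∀ D, CancellationUpTo D := by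
  constructor
  · intro h D X Y Z _ _ _ _ _ _ _ _ _ ρX ρY ρZ σ τ _
    exact h X Y Z ρX ρY ρZ σ τ
  · intro h X Y Z _ _ _ _ _ _ _ _ _ ρX ρY ρZ σ τ
    refine h (∑ z, (ρZ z - ρX ⊥).toNat) X Y Z ρX ρY ρZ σ τ fun z => ?_
    have h1 : (ρZ z - ρX ⊥).toNat ≤ ∑ z, (ρZ z - ρX ⊥).toNat :=
      Finset.single_le_sum (f := fun z => (ρZ z - ρX ⊥).toNat) (fun _ _ => Nat.zero_le _)
        (Finset.mem_univ z)
    omega

theorem main : (Cancellation ↔ ∀ D, CancellationUpTo D) ∧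
    ∀ D, (CancellationUpTo D ↔ SphereDesuspension D ∧ BallDesuspension D) :=
  ⟨cancellation_iff, fun _ => ⟨fun h => ⟨sphere_of_cancellation h, ball_of_cancellation h⟩,
    fun h => cancellation_of h.1 h.2⟩⟩

end Pool.Agent.CWS
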